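import Pool.Agent.R974.AT.Defs

set_option autoImplicit false

open MeasureTheory ProbabilityTheory Filter Topology Set
open scoped ENNReal NNReal

universe u

noncomputable section

namespace R974.AT

open Pool.Agent.R974.Span (GBM dq mx measurable_mx le_mx mx_le dense_dq)

variable {Ω : Type u} [MeasurableSpace Ω] {P : Measure Ω} {B : ℝ≥0 → Ω → ℝ}

/-- finite linear combinations of the values of a Brownian motion form a Gaussian process -/
lemma gauss_lin (hB : GBM B P) {S : Type*} (α : S → Fin 4 → ℝ) (τ : S → Fin 4 → ℝ≥0) :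
    IsGaussianProcess (fun (s : S) ω => ∑ i, α s i * B (τ s i) ω) P := by
  classical
  refine hB.pre.isGaussianProcess.of_isGaussianProcess fun s => ?_
  refine ⟨Finset.univ.image (τ s), ∑ i, (α s i) • (ContinuousLinearMap.proj
    (⟨τ s i, Finset.mem_image_of_mem _ (Finset.mem_univ i)⟩ : Finset.univ.image (τ s))), ?_⟩
  intro ω
  simp

lemma memLp_B (hB : GBM B P) (t : ℝ≥0) : MemLp (B t) 2 P :=
  (hB.pre.isGaussianProcess.hasGaussianLaw_eval t).memLp_two

/-- increments -/
def D (B : ℝ≥0 → Ω → ℝ) (p q : ℝ≥0) : Ω → ℝ := fun ω => B q ω - B p ω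

lemma memLp_D (hB : GBM B P) (p q : ℝ≥0) : MemLp (D B p q) 2 P :=
  (memLp_B hB q).sub (memLp_B hB p)

lemma meas_D (hB : GBM B P) (p q : ℝ≥0) : Measurable (D B p q) := (hB.meas q).sub (hB.meas p)

lemma cov_D (hB : GBM B P) (p q p' q' : ℝ≥0) : cov[D B p q, D B p' q'; P] =
    min (q : ℝ) q' - min (q : ℝ) p' - min (p : ℝ) q' + min (p : ℝ) p' := by
  have := hB.prob
  unfold D
  rw [covariance_fun_sub_fun_sub (memLp_B hB q) (memLp_B hB p) (memLp_B hB q') (memLp_B hB p')]
  rw [hB.pre.covariance_eval, hB.pre.covariance_eval, hB.pre.covariance_eval,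
    hB.pre.covariance_eval]
  push_cast
  ring

lemma cov_D_disj (hB : GBM B P) {p q p' q' : ℝ≥0} (h1 : p ≤ q) (h2 : p' ≤ q')
    (h : q ≤ p' ∨ q' ≤ p) : cov[D B p q, D B p' q'; P] = 0 := by
  rw [cov_D hB]
  have h1' : (p : ℝ) ≤ q := h1
  have h2' : (p' : ℝ) ≤ q' := h2
  rcases h with h | h
  · have h' : (q : ℝ) ≤ p' := h
    rw [min_eq_left (by linarith), min_eq_left (by linarith), min_eq_left (by linarith),
      min_eq_left (by linarith)]
    ring
  · have h' : (q' : ℝ) ≤ p := h
    rw [min_eq_right (by linarith), min_eq_right (by linarith), min_eq_right (by linarith),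
      min_eq_right (by linarith)]
    ring

/-- families of increments over non overlapping intervals are independent -/
lemma indep_D (hB : GBM B P) {S T : Type*} (p q : S → ℝ≥0) (p' q' : T → ℝ≥0)
    (h1 : ∀ s, p s ≤ q s) (h2 : ∀ t, p' t ≤ q' t) (h : ∀ s t, q s ≤ p' t ∨ q' t ≤ p s) :
    IndepFun (fun ω s => D B (p s) (q s) ω) (fun ω t => D B (p' t) (q' t) ω) P := by
  have := hB.prob
  refine IsGaussianProcess.indepFun_of_covariance_eq_zero (X := fun s => D B (p s) (q s))
    (Y := fun t => D B (p' t) (q' t)) ?_ (fun s => (meas_D hB _ _).aemeasurable)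
    (fun t => (meas_D hB _ _).aemeasurable) (fun s t => cov_D_disj hB (h1 s) (h2 t) (h s t))
  have := gauss_lin hB (S := S ⊕ T) (fun _ => ![1, -1, 0, 0])
    (Sum.elim (fun s => ![q s, p s, 0, 0]) (fun t => ![q' t, p' t, 0, 0]))
  refine this.congr fun s => ?_
  rcases s with s | t
  · refine Eventually.of_forall fun ω => ?_
    simp [Fin.sum_univ_four, D, sub_eq_add_neg]
  · refine Eventually.of_forall fun ω => ?_
    simp [Fin.sum_univ_four, D, sub_eq_add_neg]

/-- law of an increment -/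
lemma law_D (hB : GBM B P) {p q : ℝ≥0} (h : p ≤ q) : P.map (D B p q) = gaussianReal 0 (q - p) := by
  have h1 := (hB.pre.hasLaw_sub q p).map_eq
  have h2 : (B q - B p) = D B p q := rfl
  rw [h2] at h1
  rw [h1]
  congr 1
  rw [← NNReal.coe_inj, coe_nndist, NNReal.coe_sub h]
  show dist (q : ℝ) (p : ℝ) = _
  rw [Real.dist_eq, abs_of_nonneg (by have : (p : ℝ) ≤ q := h
                                      linarith)]

/-- a Gaussian measure gives little mass to intervals -/
lemma gauss_Icc {v : ℝ≥0} (hv : v ≠ 0) (a b : ℝ) :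
    gaussianReal 0 v (Icc a b) ≤ ENNReal.ofReal ((√(2 * Real.pi * v))⁻¹ * (b - a)) := by
  rw [gaussianReal_apply _ hv]
  have h1 : ∀ x, gaussianPDF 0 v x ≤ ENNReal.ofReal ((√(2 * Real.pi * v))⁻¹) := by
    intro x
    rw [gaussianPDF]
    apply ENNReal.ofReal_le_ofReal
    rw [gaussianPDFReal]
    have : Real.exp (-(x - 0) ^ 2 / (2 * v)) ≤ 1 := by
      apply Real.exp_le_one_iff.mpr
      apply div_nonpos_of_nonpos_of_nonneg
      · linarith [sq_nonneg (x - 0)]
      · positivity
    have h0 : 0 ≤ (√(2 * Real.pi * v))⁻¹ := by positivity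
    nlinarith
  calc ∫⁻ x in Icc a b, gaussianPDF 0 v x ≤ ∫⁻ _x in Icc a b, ENNReal.ofReal ((√(2 * Real.pi * v))⁻¹) :=
        lintegral_mono h1
    _ = ENNReal.ofReal ((√(2 * Real.pi * v))⁻¹) * volume (Icc a b) := by
        rw [setLIntegral_const]
    _ = ENNReal.ofReal ((√(2 * Real.pi * v))⁻¹) * ENNReal.ofReal (b - a) := by
        rw [Real.volume_Icc]
    _ = _ := by
        rw [← ENNReal.ofReal_mul (by positivity)]

/-- tails of a Gaussian -/
lemma gauss_tail (v : ℝ≥0) (y : ℝ) (hy : 0 ≤ y) (hv : v ≠ 0) :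
    gaussianReal 0 v (Iic (-y)) ≤ ENNReal.ofReal (Real.exp (-(y ^ 2 / (2 * v)))) := by
  have hv' : (0 : ℝ) < v := by
    have : 0 < v := pos_iff_ne_zero.mpr hv
    exact_mod_cast this
  have h1 := measure_le_le_exp_mul_mgf (μ := gaussianReal 0 v) (X := fun x => x) (-y)
    (t := -(y / v)) (by
      have : 0 ≤ y / v := by positivity
      linarith) (by
      simpa using integrable_exp_mul_gaussianReal (μ := 0) (v := v) (-(y / v)))
  have h2 : mgf (fun x : ℝ => x) (gaussianReal 0 v) (-(y / v)) =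
      Real.exp (0 * (-(y / v)) + v * (-(y / v)) ^ 2 / 2) := by
    have := congrFun (mgf_fun_id_gaussianReal (μ := 0) (v := v)) (-(y / v))
    exact this
  rw [h2] at h1
  have h3 : gaussianReal 0 v (Iic (-y)) = ENNReal.ofReal ((gaussianReal 0 v).real {x | x ≤ -y}) := by
    rw [Measure.real, ENNReal.ofReal_toReal (measure_ne_top _ _)]
    rfl
  rw [h3]
  apply ENNReal.ofReal_le_ofReal
  refine h1.trans (le_of_eq ?_)
  rw [← Real.exp_add]
  congr 1
  field_simp
  ring

/-- the density lemma -/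
lemma density (hP : IsProbabilityMeasure P) {β : Type*} [MeasurableSpace β] {U : Ω → ℝ} {W : Ω → β}
    (hU : Measurable U) (hW : Measurable W) (hind : IndepFun U W P) {v : ℝ≥0} (hv : v ≠ 0)
    (hlaw : P.map U = gaussianReal 0 v) {f g : β → ℝ} (hf : Measurable f) (hg : Measurable g)
    {A : Set β} (hA : MeasurableSet A) :
    P {ω | f (W ω) ≤ U ω ∧ U ω ≤ g (W ω) ∧ W ω ∈ A} ≤
      ∫⁻ ω, A.indicator (fun w => ENNReal.ofReal ((√(2 * Real.pi * v))⁻¹ * (g w - f w))) (W ω) ∂P := by
  have hmap := (indepFun_iff_map_prod_eq_prod_map_map hU.aemeasurable hW.aemeasurable).mp hind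
  set M : Set (ℝ × β) := {q | f q.2 ≤ q.1 ∧ q.1 ≤ g q.2 ∧ q.2 ∈ A} with hM
  have hMm : MeasurableSet M := by
    refine MeasurableSet.inter ?_ (MeasurableSet.inter ?_ ?_)
    · exact measurableSet_le (hf.comp measurable_snd) measurable_fst
    · exact measurableSet_le measurable_fst (hg.comp measurable_snd)
    · exact measurable_snd hA
  have h1 : P {ω | f (W ω) ≤ U ω ∧ U ω ≤ g (W ω) ∧ W ω ∈ A} = (P.map (fun ω => (U ω, W ω))) M := by
    rw [Measure.map_apply (hU.prodMk hW) hMm]
    rfl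
  rw [h1, hmap, Measure.prod_apply_symm hMm]
  have hmeas : Measurable (A.indicator (fun w => ENNReal.ofReal ((√(2 * Real.pi * v))⁻¹ * (g w - f w)))) :=
    Measurable.indicator (by fun_prop) hA
  rw [← lintegral_map hmeas hW]
  refine lintegral_mono fun w => ?_
  rw [hlaw]
  by_cases hw : w ∈ A
  · rw [indicator_of_mem hw]
    have : (fun x => (x, w)) ⁻¹' M ⊆ Icc (f w) (g w) := fun x hx => ⟨hx.1, hx.2.1⟩
    exact (measure_mono this).trans (gauss_Icc hv _ _)
  · have : (fun x => (x, w)) ⁻¹' M = ∅ := by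
      ext x
      simp only [mem_preimage, hM, mem_empty_iff_false, iff_false]
      intro hx
      exact hw hx.2.2
    rw [this]
    simp

/-- the second independence lemma -/
lemma indep_int (hP : IsProbabilityMeasure P) {β : Type*} [MeasurableSpace β] {m : Ω → ℝ} {W : Ω → β}
    (hm : Measurable m) (hW : Measurable W) (hind : IndepFun m W P) {F : β → ℝ≥0∞}
    {o : β → ℝ} (hF : Measurable F) (ho : Measurable o) {G : ℝ → ℝ≥0∞} (hG : Measurable G)
    (hb : ∀ y, P {ω | m ω ≤ y} ≤ G y) :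
    ∫⁻ ω, (if m ω ≤ o (W ω) then F (W ω) else 0) ∂P ≤ ∫⁻ ω, F (W ω) * G (o (W ω)) ∂P := by
  have hmap := (indepFun_iff_map_prod_eq_prod_map_map hm.aemeasurable hW.aemeasurable).mp hind
  set Φ : ℝ × β → ℝ≥0∞ := fun q => if q.1 ≤ o q.2 then F q.2 else 0 with hΦ
  have hΦm : Measurable Φ := by
    refine Measurable.ite ?_ (hF.comp measurable_snd) measurable_const
    exact measurableSet_le measurable_fst (ho.comp measurable_snd)
  have h1 : ∫⁻ ω, (if m ω ≤ o (W ω) then F (W ω) else 0) ∂P =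
      ∫⁻ q, Φ q ∂(P.map (fun ω => (m ω, W ω))) := by
    rw [lintegral_map hΦm (hm.prodMk hW)]
  have h2 : ∫⁻ ω, F (W ω) * G (o (W ω)) ∂P = ∫⁻ w, F w * G (o w) ∂(P.map W) := by
    rw [lintegral_map (by fun_prop) hW]
  rw [h1, h2, hmap, lintegral_prod_symm _ hΦm.aemeasurable]
  refine lintegral_mono fun w => ?_
  have h3 : ∀ x, Φ (x, w) = (Iic (o w)).indicator (fun _ => F w) x := by
    intro x
    by_cases hx : x ≤ o w
    · rw [indicator_of_mem (show x ∈ Iic (o w) from hx)]
      simp [hΦ, hx]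
    · rw [indicator_of_notMem (show x ∉ Iic (o w) from hx)]
      simp [hΦ, hx]
  simp_rw [h3]
  rw [lintegral_indicator measurableSet_Iic, setLIntegral_const, Measure.map_apply hm measurableSet_Iic]
  exact mul_le_mul_right (hb _) _

end R974.AT
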