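import Pool.Agent.R974.AT.Core1

set_option autoImplicit false

open MeasureTheory ProbabilityTheory Filter Topology Set
open scoped ENNReal NNReal

universe u

noncomputable section

namespace R974.AT

open Pool.Agent.R974.Span (GBM dq mx measurable_mx le_mx mx_le dense_dq)

variable {Ω : Type u} [MeasurableSpace Ω] {P : Measure Ω} {B : ℝ≥0 → Ω → ℝ}

/-- the difference process before times `1` and `1 - h` -/
def Vp (B : ℝ≥0 → Ω → ℝ) (h : ℝ≥0) (t : ℝ≥0) : Ω → ℝ := fun ω =>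
  D B (1 - h - t) (1 - h) ω - D B (1 - t) 1 ω

/-- the sum at scale `a` -/
def Gp (B : ℝ≥0 → Ω → ℝ) (h : ℝ≥0) (a : ℝ≥0) : Ω → ℝ := fun ω =>
  -D B (1 - h - a) (1 - h) ω - D B (1 - a) 1 ω

lemma memLp_Vp (hB : GBM B P) (h t : ℝ≥0) : MemLp (Vp B h t) 2 P :=
  (memLp_D hB _ _).sub (memLp_D hB _ _)

lemma meas_Vp (hB : GBM B P) (h t : ℝ≥0) : Measurable (Vp B h t) :=
  (meas_D hB _ _).sub (meas_D hB _ _)

lemma meas_Gp (hB : GBM B P) (h t : ℝ≥0) : Measurable (Gp B h t) :=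
  (meas_D hB _ _).neg.sub (meas_D hB _ _)

lemma cont_Vp (hB : GBM B P) (h : ℝ≥0) (ω : Ω) : Continuous (fun t => Vp B h t ω) := by
  have := hB.cont ω
  unfold Vp D
  have h1 : Continuous (fun t : ℝ≥0 => 1 - h - t) := continuous_const.sub continuous_id
  have h2 : Continuous (fun t : ℝ≥0 => 1 - t) := continuous_const.sub continuous_id
  exact (continuous_const.sub (this.comp h1)).sub (continuous_const.sub (this.comp h2))

lemma integral_D (hB : GBM B P) (p q : ℝ≥0) : ∫ ω, D B p q ω ∂P = 0 := by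
  unfold D
  rw [integral_sub (hB.pre.integrable_eval q) (hB.pre.integrable_eval p), hB.pre.integral_eval,
    hB.pre.integral_eval, sub_zero]

lemma int_D (hB : GBM B P) (p q : ℝ≥0) : Integrable (D B p q) P :=
  (hB.pre.integrable_eval q).sub (hB.pre.integrable_eval p)

/-- covariance of the difference process -/
lemma cov_Vp (hB : GBM B P) {h c s t : ℝ≥0} (hch : c ≤ h) (hc1 : h + c ≤ 1) (hst : s ≤ t)
    (htc : t ≤ c) : cov[Vp B h s, Vp B h t; P] = 2 * s := by
  have := hB.prob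
  unfold Vp
  rw [covariance_fun_sub_fun_sub (memLp_D hB _ _) (memLp_D hB _ _) (memLp_D hB _ _)
    (memLp_D hB _ _)]
  have hch' : (c : ℝ) ≤ h := hch
  have hc1' : (h : ℝ) + c ≤ 1 := by exact_mod_cast hc1
  have hst' : (s : ℝ) ≤ t := hst
  have htc' : (t : ℝ) ≤ c := htc
  have hs0 : (0 : ℝ) ≤ s := s.2
  have h1 : h ≤ 1 := by
    have : (h : ℝ) ≤ 1 := by linarith [c.2]
    exact_mod_cast this
  have e1 : ((1 - h : ℝ≥0) : ℝ) = 1 - h := by rw [NNReal.coe_sub h1]; simp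
  have e2 : ((1 - h - s : ℝ≥0) : ℝ) = 1 - h - s := by
    rw [NNReal.coe_sub, e1]
    rw [← NNReal.coe_le_coe, e1]; linarith
  have e3 : ((1 - h - t : ℝ≥0) : ℝ) = 1 - h - t := by
    rw [NNReal.coe_sub, e1]
    rw [← NNReal.coe_le_coe, e1]; linarith
  have e4 : ((1 - s : ℝ≥0) : ℝ) = 1 - s := by
    rw [NNReal.coe_sub]
    · simp
    · rw [← NNReal.coe_le_coe]; push_cast; linarith
  have e5 : ((1 - t : ℝ≥0) : ℝ) = 1 - t := by
    rw [NNReal.coe_sub]
    · simp
    · rw [← NNReal.coe_le_coe]; push_cast; linarith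
  rw [cov_D hB, cov_D hB, cov_D hB, cov_D hB, e1, e2, e3, e4, e5]
  simp only [NNReal.coe_one]
  rw [min_self, min_self, min_eq_right (show (1 : ℝ) - h - t ≤ 1 - h by linarith),
    min_eq_left (show (1 : ℝ) - h - s ≤ 1 - h by linarith),
    min_eq_right (show (1 : ℝ) - h - t ≤ 1 - h - s by linarith),
    min_eq_left (show (1 : ℝ) - h ≤ 1 by linarith [h.2]),
    min_eq_left (show (1 : ℝ) - h ≤ 1 - t by linarith),
    min_eq_left (show (1 : ℝ) - h - s ≤ 1 by linarith [h.2]),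
    min_eq_left (show (1 : ℝ) - h - s ≤ 1 - t by linarith),
    min_eq_right (show (1 : ℝ) - h ≤ 1 by linarith [h.2]),
    min_eq_right (show (1 : ℝ) - h - t ≤ 1 by linarith [h.2]),
    min_eq_right (show (1 : ℝ) - h ≤ 1 - s by linarith),
    min_eq_right (show (1 : ℝ) - h - t ≤ 1 - s by linarith),
    min_eq_right (show (1 : ℝ) - t ≤ 1 by linarith),
    min_eq_left (show (1 : ℝ) - s ≤ 1 by linarith),
    min_eq_right (show (1 : ℝ) - t ≤ 1 - s by linarith)]
  ring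

omit [MeasurableSpace Ω] in
/-- the difference process as linear combinations -/
lemma Vp_lin (h t : ℝ≥0) (ω : Ω) : Vp B h t ω =
    ∑ i, (![1, -1, -1, 1] : Fin 4 → ℝ) i * B ((![1 - h, 1 - h - t, 1, 1 - t] : Fin 4 → ℝ≥0) i) ω := by
  simp [Fin.sum_univ_four, Vp, D]
  ring

omit [MeasurableSpace Ω] in
lemma Gp_lin (h a : ℝ≥0) (ω : Ω) : Gp B h a ω =
    ∑ i, (![-1, 1, -1, 1] : Fin 4 → ℝ) i * B ((![1 - h, 1 - h - a, 1, 1 - a] : Fin 4 → ℝ≥0) i) ω := by
  simp [Fin.sum_univ_four, Gp, D]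
  ring

omit [MeasurableSpace Ω] in
lemma D_lin (p q : ℝ≥0) (ω : Ω) : D B p q ω =
    ∑ i, (![1, -1, 0, 0] : Fin 4 → ℝ) i * B ((![q, p, 0, 0] : Fin 4 → ℝ≥0) i) ω := by
  simp [Fin.sum_univ_four, D]
  ring

lemma gauss_Vp (hB : GBM B P) (h c : ℝ≥0) :
    IsGaussianProcess (fun t : Set.Iic c => Vp B h t) P := by
  refine (gauss_lin hB (S := Set.Iic c) (fun _ => ![1, -1, -1, 1])
    (fun t => ![1 - h, 1 - h - t, 1, 1 - t])).congr fun t => Eventually.of_forall fun ω => ?_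
  exact (Vp_lin h t ω).symm

/-- covariance with the sum -/
lemma cov_Vp_Gp (hB : GBM B P) {h c a t : ℝ≥0} (hch : c ≤ h) (hc1 : h + c ≤ 1) (hac : a ≤ c)
    (htc : t ≤ c) : cov[Vp B h t, Gp B h a; P] = 0 := by
  have := hB.prob
  unfold Vp Gp
  have hneg : MemLp (fun ω => -D B (1 - h - a) (1 - h) ω) 2 P := (memLp_D hB _ _).neg
  rw [covariance_fun_sub_fun_sub (memLp_D hB _ _) (memLp_D hB _ _) hneg
    (memLp_D hB _ _)]
  have n1 : ∀ X : Ω → ℝ, cov[X, fun ω => -D B (1 - h - a) (1 - h) ω; P] =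
      -cov[X, D B (1 - h - a) (1 - h); P] := fun X => covariance_neg_right
  rw [n1, n1]
  have hch' : (c : ℝ) ≤ h := hch
  have hc1' : (h : ℝ) + c ≤ 1 := by exact_mod_cast hc1
  have hac' : (a : ℝ) ≤ c := hac
  have htc' : (t : ℝ) ≤ c := htc
  have ha0 : (0 : ℝ) ≤ a := a.2
  have ht0 : (0 : ℝ) ≤ t := t.2
  have h1 : h ≤ 1 := by
    have : (h : ℝ) ≤ 1 := by linarith [c.2]
    exact_mod_cast this
  have e1 : ((1 - h : ℝ≥0) : ℝ) = 1 - h := by rw [NNReal.coe_sub h1]; simp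
  have e2 : ((1 - h - a : ℝ≥0) : ℝ) = 1 - h - a := by
    rw [NNReal.coe_sub, e1]
    rw [← NNReal.coe_le_coe, e1]; linarith
  have e3 : ((1 - h - t : ℝ≥0) : ℝ) = 1 - h - t := by
    rw [NNReal.coe_sub, e1]
    rw [← NNReal.coe_le_coe, e1]; linarith
  have e4 : ((1 - a : ℝ≥0) : ℝ) = 1 - a := by
    rw [NNReal.coe_sub]
    · simp
    · rw [← NNReal.coe_le_coe]; push_cast; linarith
  have e5 : ((1 - t : ℝ≥0) : ℝ) = 1 - t := by
    rw [NNReal.coe_sub]
    · simp
    · rw [← NNReal.coe_le_coe]; push_cast; linarith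
  rw [cov_D hB, cov_D hB, cov_D hB, cov_D hB, e1, e2, e3, e4, e5]
  simp only [NNReal.coe_one]
  rw [min_self, min_self, min_eq_right (show (1 : ℝ) - h - a ≤ 1 - h by linarith),
    min_eq_left (show (1 : ℝ) - h - t ≤ 1 - h by linarith),
    min_eq_left (show (1 : ℝ) - h ≤ 1 by linarith [h.2]),
    min_eq_left (show (1 : ℝ) - h ≤ 1 - a by linarith),
    min_eq_left (show (1 : ℝ) - h - t ≤ 1 by linarith [h.2]),
    min_eq_left (show (1 : ℝ) - h - t ≤ 1 - a by linarith),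
    min_eq_right (show (1 : ℝ) - h ≤ 1 by linarith [h.2]),
    min_eq_right (show (1 : ℝ) - h - a ≤ 1 by linarith [h.2]),
    min_eq_right (show (1 : ℝ) - h ≤ 1 - t by linarith),
    min_eq_right (show (1 : ℝ) - h - a ≤ 1 - t by linarith),
    min_eq_right (show (1 : ℝ) - a ≤ 1 by linarith),
    min_eq_left (show (1 : ℝ) - t ≤ 1 by linarith)]
  have hm : min ((1 : ℝ) - h - t) ((1 : ℝ) - h - a) = min ((1 : ℝ) - (t : ℝ)) ((1 : ℝ) - (a : ℝ)) - h := by
    rcases le_total (t : ℝ) a with h5 | h5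
    · rw [min_eq_right (by linarith), min_eq_right (by linarith)]; ring
    · rw [min_eq_left (by linarith), min_eq_left (by linarith)]; ring
  rw [hm]
  ring

/-- index set for increments used by the oscillations -/
def T1 (h δ : ℝ≥0) : Type := {q : ℝ≥0 × ℝ≥0 // q.1 ≤ q.2 ∧ (1 ≤ q.1 ∨ (1 - h ≤ q.1 ∧ q.2 ≤ 1 - h + δ))}

/-- the sum and the later increments -/
def Wf (B : ℝ≥0 → Ω → ℝ) (h δ a : ℝ≥0) : Option (T1 h δ) → Ω → ℝ
  | none => Gp B h a
  | some q => D B q.1.1 q.1.2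

def Wα (h δ : ℝ≥0) : Option (T1 h δ) → Fin 4 → ℝ
  | none => ![-1, 1, -1, 1]
  | some _ => ![1, -1, 0, 0]

def Wτ (h δ a : ℝ≥0) : Option (T1 h δ) → Fin 4 → ℝ≥0
  | none => ![1 - h, 1 - h - a, 1, 1 - a]
  | some q => ![q.1.2, q.1.1, 0, 0]

/-- the difference process is independent of the sum and of the later increments -/
lemma indep_V (hB : GBM B P) {h c a δ : ℝ≥0} (hch : c + δ ≤ h) (hc1 : h + c ≤ 1) (hac : a ≤ c) :
    IndepFun (fun ω (t : Set.Iic c) => Vp B h t ω)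
      (fun ω (t : Option (T1 h δ)) => Wf B h δ a t ω) P := by
  have := hB.prob
  have hch1 : c ≤ h := le_self_add.trans hch
  have h1 : h ≤ 1 := le_self_add.trans hc1
  have hX : IsGaussianProcess (Sum.elim (fun t : Set.Iic c => Vp B h t) (Wf B h δ a)) P := by
    refine (gauss_lin hB (S := Set.Iic c ⊕ Option (T1 h δ))
      (Sum.elim (fun _ => ![1, -1, -1, 1]) (Wα h δ))
      (Sum.elim (fun t => ![1 - h, 1 - h - t, 1, 1 - t]) (Wτ h δ a))).congr fun s => ?_
    rcases s with t | t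
    · exact Eventually.of_forall fun ω => (Vp_lin h t ω).symm
    · rcases t with _ | q
      · exact Eventually.of_forall fun ω => (Gp_lin h a ω).symm
      · exact Eventually.of_forall fun ω => (D_lin q.1.1 q.1.2 ω).symm
  refine hX.indepFun_of_covariance_eq_zero (fun t => (meas_Vp hB _ _).aemeasurable) ?_ ?_
  · intro t
    rcases t with _ | q
    · exact (meas_Gp hB _ _).aemeasurable
    · exact (meas_D hB _ _).aemeasurable
  · intro s t
    rcases t with _ | q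
    · exact cov_Vp_Gp hB hch1 hc1 hac s.2
    · show cov[Vp B h s, D B q.1.1 q.1.2; P] = 0
      unfold Vp
      rw [covariance_fun_sub_left (memLp_D hB _ _) (memLp_D hB _ _) (memLp_D hB _ _)]
      have hs : (s : ℝ≥0) ≤ c := s.2
      have hs' : ((s : ℝ≥0) : ℝ) ≤ c := hs
      have hch' : (c : ℝ) + δ ≤ h := by exact_mod_cast hch
      have hc1' : (h : ℝ) + c ≤ 1 := by exact_mod_cast hc1
      have e1 : ((1 - h : ℝ≥0) : ℝ) = 1 - h := by rw [NNReal.coe_sub h1]; simp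
      have e4 : ((1 - (s : ℝ≥0) : ℝ≥0) : ℝ) = 1 - (s : ℝ≥0) := by
        rw [NNReal.coe_sub]
        · simp
        · rw [← NNReal.coe_le_coe]; push_cast; linarith [h.2]
      rw [cov_D_disj hB tsub_le_self q.2.1, cov_D_disj hB tsub_le_self q.2.1, sub_zero]
      · rcases q.2.2 with h5 | h5
        · exact Or.inl h5
        · right
          refine h5.2.trans ?_
          rw [← NNReal.coe_le_coe, NNReal.coe_add, e1, e4]
          linarith
      · rcases q.2.2 with h5 | h5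
        · exact Or.inl (tsub_le_self.trans h5)
        · exact Or.inl h5.1

end R974.AT
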