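import Pool.Agent.R974.AT.Core2

set_option autoImplicit false

open MeasureTheory ProbabilityTheory Filter Topology Set
open scoped ENNReal NNReal

universe u

noncomputable section

namespace R974.AT

open Pool.Agent.R974.Span (GBM dq mx measurable_mx le_mx mx_le dense_dq)

variable {Ω : Type u} [MeasurableSpace Ω] {P : Measure Ω} {B : ℝ≥0 → Ω → ℝ}

/-- minus the minimum of the difference process -/
def mm (B : ℝ≥0 → Ω → ℝ) (h c : ℝ≥0) (ω : Ω) : ℝ := mx (fun t => -Vp B h t ω) 0 c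

/-- the oscillation -/
def OO (B : ℝ≥0 → Ω → ℝ) (h δ : ℝ≥0) (ω : Ω) : ℝ :=
  osc (fun t => B (1 + t) ω - B 1 ω) δ + osc (fun t => B (1 - h + t) ω - B (1 - h) ω) δ

def LL (B : ℝ≥0 → Ω → ℝ) (h δ c : ℝ≥0) (ω : Ω) : ℝ := D B (1 - h) (1 - h + δ) ω + D B (1 - c) 1 ω

lemma meas_mm (hB : GBM B P) (h c : ℝ≥0) : Measurable (mm B h c) := by
  unfold mm mx
  exact Measurable.iSup fun n => (meas_Vp hB _ _).neg

lemma meas_osc (hB : GBM B P) (s δ : ℝ≥0) :
    Measurable (fun ω => osc (fun t => B (s + t) ω - B s ω) δ) := by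
  unfold osc
  refine Measurable.iSup fun n => ?_
  exact continuous_abs.measurable.comp ((hB.meas _).sub (hB.meas _))

lemma meas_OO (hB : GBM B P) (h δ : ℝ≥0) : Measurable (OO B h δ) :=
  (meas_osc hB 1 δ).add (meas_osc hB (1 - h) δ)

lemma meas_LL (hB : GBM B P) (h δ c : ℝ≥0) : Measurable (LL B h δ c) :=
  (meas_D hB _ _).add (meas_D hB _ _)

/-- index set of the increments away from `[1 - h + δ, 1 - c]` -/
def T2 (h δ c : ℝ≥0) : Type := {q : ℝ≥0 × ℝ≥0 // q.1 ≤ q.2 ∧ (q.2 ≤ 1 - h + δ ∨ 1 - c ≤ q.1)}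

lemma indep_U (hB : GBM B P) {h c a δ : ℝ≥0} (hac : a ≤ c) (hle : 1 - h + δ ≤ 1 - c) :
    IndepFun (D B (1 - h + δ) (1 - c))
      (fun ω => (mm B h c ω, LL B h δ c ω, OO B h δ ω, Gp B h a ω)) P := by
  have h1 := indep_D hB (S := Unit) (T := T2 h δ c) (fun _ => 1 - h + δ) (fun _ => 1 - c)
    (fun q => q.1.1) (fun q => q.1.2) (fun _ => hle) (fun q => q.2.1) (fun _ q => by
      rcases q.2.2 with h | h
      · exact Or.inr h
      · exact Or.inl h)
  have hc : ∀ n, max 0 (min (dq n) c) ≤ c := fun n => max_le zero_le (min_le_right _ _)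
  -- the elements of the index set
  let i1 : ∀ t : ℝ≥0, T2 h δ c := fun t => ⟨(1 - h - t, 1 - h), tsub_le_self, Or.inl le_self_add⟩
  let i2 : ∀ t : ℝ≥0, t ≤ c → T2 h δ c := fun t ht => ⟨(1 - t, 1), tsub_le_self,
    Or.inr (tsub_le_tsub_left ht 1)⟩
  let i3 : ∀ t : ℝ≥0, t ≤ δ → T2 h δ c := fun t ht => ⟨(1 - h, 1 - h + t), le_self_add,
    Or.inl (add_le_add_right ht _)⟩
  let i4 : ∀ t : ℝ≥0, T2 h δ c := fun t => ⟨(1, 1 + t), le_self_add,
    Or.inr (tsub_le_self)⟩
  let φ : (T2 h δ c → ℝ) → ℝ × ℝ × ℝ × ℝ := fun f =>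
    (⨆ n, -(f (i1 (max 0 (min (dq n) c))) - f (i2 _ (hc n))),
      f (i3 δ le_rfl) + f (i2 c le_rfl),
      (⨆ n, |f (i4 (min (dq n) δ))|) + (⨆ n, |f (i3 (min (dq n) δ) (min_le_right _ _))|),
      -f (i1 a) - f (i2 a hac))
  have hφ : Measurable φ := by
    refine Measurable.prodMk ?_ (Measurable.prodMk ?_ (Measurable.prodMk ?_ ?_))
    · exact Measurable.iSup fun n => ((measurable_pi_apply (i1 (max 0 (min (dq n) c)))).sub
        (measurable_pi_apply (i2 _ (hc n)))).neg
    · exact (measurable_pi_apply _).add (measurable_pi_apply _)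
    · refine Measurable.add ?_ ?_
      · exact Measurable.iSup fun n => continuous_abs.measurable.comp (measurable_pi_apply _)
      · exact Measurable.iSup fun n => continuous_abs.measurable.comp (measurable_pi_apply _)
    · exact (measurable_pi_apply _).neg.sub (measurable_pi_apply _)
  exact h1.comp (φ := fun f : Unit → ℝ => f ()) (measurable_pi_apply ()) hφ

lemma indep_m (hB : GBM B P) {h c a δ : ℝ≥0} (hch : c + δ ≤ h) (hc1 : h + c ≤ 1) (hac : a ≤ c) :
    IndepFun (mm B h c) (fun ω => (OO B h δ ω, Gp B h a ω)) P := by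
  have h1 := indep_V hB hch hc1 hac
  have hc : ∀ n, max 0 (min (dq n) c) ≤ c := fun n => max_le zero_le (min_le_right _ _)
  let ψ : (Set.Iic c → ℝ) → ℝ := fun f => ⨆ n, -f ⟨max 0 (min (dq n) c), hc n⟩
  have hψ : Measurable ψ := Measurable.iSup fun n => (measurable_pi_apply _).neg
  let i3 : ∀ t : ℝ≥0, t ≤ δ → T1 h δ := fun t ht => ⟨(1 - h, 1 - h + t), le_self_add,
    Or.inr ⟨le_rfl, add_le_add_right ht _⟩⟩
  let i4 : ∀ t : ℝ≥0, T1 h δ := fun t => ⟨(1, 1 + t), le_self_add, Or.inl le_rfl⟩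
  let χ : (Option (T1 h δ) → ℝ) → ℝ × ℝ := fun f =>
    ((⨆ n, |f (some (i4 (min (dq n) δ)))|) + (⨆ n, |f (some (i3 (min (dq n) δ) (min_le_right _ _)))|),
      f none)
  have hχ : Measurable χ := by
    refine Measurable.prodMk ?_ (measurable_pi_apply _)
    refine Measurable.add ?_ ?_
    · exact Measurable.iSup fun n => continuous_abs.measurable.comp (measurable_pi_apply _)
    · exact Measurable.iSup fun n => continuous_abs.measurable.comp (measurable_pi_apply _)
  exact h1.comp hψ hχ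

lemma indep_G (hB : GBM B P) {h c a δ : ℝ≥0} (hle : 1 - h + δ ≤ 1 - c) (hac : a ≤ c) :
    IndepFun (Gp B h a) (OO B h δ) P := by
  have h1 := indep_D hB (S := Bool) (T := T1 h δ) (fun b => if b then 1 - h - a else 1 - a)
    (fun b => if b then 1 - h else 1) (fun q => q.1.1) (fun q => q.1.2) (fun b => by
      cases b <;> simp) (fun q => q.2.1) (fun b q => by
      cases b
      · rcases q.2.2 with h2 | h2
        · exact Or.inl (by simpa using h2)
        · right
          simp only [Bool.false_eq_true, if_false]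
          exact h2.2.trans (hle.trans (tsub_le_tsub_left hac 1))
      · rcases q.2.2 with h2 | h2
        · exact Or.inl (by simpa using tsub_le_self.trans h2)
        · exact Or.inl (by simpa using h2.1))
  let i3 : ∀ t : ℝ≥0, t ≤ δ → T1 h δ := fun t ht => ⟨(1 - h, 1 - h + t), le_self_add,
    Or.inr ⟨le_rfl, add_le_add_right ht _⟩⟩
  let i4 : ∀ t : ℝ≥0, T1 h δ := fun t => ⟨(1, 1 + t), le_self_add, Or.inl le_rfl⟩
  let χ : (T1 h δ → ℝ) → ℝ := fun f =>
    ((⨆ n, |f (i4 (min (dq n) δ))|) + (⨆ n, |f (i3 (min (dq n) δ) (min_le_right _ _))|))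
  have hχ : Measurable χ := by
    refine Measurable.add ?_ ?_
    · exact Measurable.iSup fun n => continuous_abs.measurable.comp (measurable_pi_apply _)
    · exact Measurable.iSup fun n => continuous_abs.measurable.comp (measurable_pi_apply _)
  let ψ : (Bool → ℝ) → ℝ := fun f => -f true - f false
  have hψ : Measurable ψ := (measurable_pi_apply _).neg.sub (measurable_pi_apply _)
  exact h1.comp hψ hχ

/-- the tail of the sum -/
lemma tail_G (hB : GBM B P) {h c a : ℝ≥0} (hc1 : h + c ≤ 1) (hch : c ≤ h) (hac : a ≤ c) (ha : 0 < a)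
    (y : ℝ) (hy : 0 ≤ y) :
    P {ω | Gp B h a ω ≤ -y} ≤ ENNReal.ofReal (Real.exp (-(y ^ 2 / (2 * (2 * a))))) := by
  have := hB.prob
  have hG : HasGaussianLaw (Gp B h a) P := by
    have h1 := (gauss_lin hB (S := Unit) (fun _ => ![-1, 1, -1, 1])
      (fun _ => ![1 - h, 1 - h - a, 1, 1 - a])).hasGaussianLaw_eval ()
    refine h1.congr ?_
    exact Eventually.of_forall fun ω => (Gp_lin h a ω).symm
  have hmean : ∫ ω, Gp B h a ω ∂P = 0 := by
    unfold Gp
    have hi : Integrable (fun ω => -D B (1 - h - a) (1 - h) ω) P := (int_D hB _ _).neg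
    rw [integral_sub hi (int_D hB _ _), integral_neg, integral_D hB, integral_D hB]
    simp
  have hvar : Var[Gp B h a; P] = 2 * a := by
    rw [← covariance_self (meas_Gp hB h a).aemeasurable]
    unfold Gp
    have hneg : MemLp (fun ω => -D B (1 - h - a) (1 - h) ω) 2 P := (memLp_D hB _ _).neg
    rw [covariance_fun_sub_fun_sub hneg (memLp_D hB _ _) hneg (memLp_D hB _ _)]
    have n1 : ∀ X : Ω → ℝ, cov[X, fun ω => -D B (1 - h - a) (1 - h) ω; P] =
        -cov[X, D B (1 - h - a) (1 - h); P] := fun X => covariance_neg_right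
    have n2 : ∀ X : Ω → ℝ, cov[fun ω => -D B (1 - h - a) (1 - h) ω, X; P] =
        -cov[D B (1 - h - a) (1 - h), X; P] := fun X => covariance_neg_left
    rw [n1, n2, n2, n1]
    have hch' : (c : ℝ) ≤ h := hch
    have hc1' : (h : ℝ) + c ≤ 1 := by exact_mod_cast hc1
    have hac' : (a : ℝ) ≤ c := hac
    have ha0 : (0 : ℝ) ≤ a := a.2
    have h1 : h ≤ 1 := le_self_add.trans hc1
    have e1 : ((1 - h : ℝ≥0) : ℝ) = 1 - h := by rw [NNReal.coe_sub h1]; simp
    have e2 : ((1 - h - a : ℝ≥0) : ℝ) = 1 - h - a := by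
      rw [NNReal.coe_sub, e1]
      rw [← NNReal.coe_le_coe, e1]; linarith
    have e4 : ((1 - a : ℝ≥0) : ℝ) = 1 - a := by
      rw [NNReal.coe_sub]
      · simp
      · rw [← NNReal.coe_le_coe]; push_cast; linarith
    have d1 : cov[D B (1 - h - a) (1 - h), D B (1 - a) 1; P] = 0 := by
      apply cov_D_disj hB tsub_le_self tsub_le_self
      left
      rw [← NNReal.coe_le_coe, e1, e4]; linarith
    have d2 : cov[D B (1 - a) 1, D B (1 - h - a) (1 - h); P] = 0 := by
      apply cov_D_disj hB tsub_le_self tsub_le_self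
      right
      rw [← NNReal.coe_le_coe, e1, e4]; linarith
    rw [d1, d2, cov_D hB, cov_D hB, e1, e2, e4]
    simp only [NNReal.coe_one, min_self]
    rw [min_eq_right (show (1 : ℝ) - h - a ≤ 1 - h by linarith),
      min_eq_left (show (1 : ℝ) - h - a ≤ 1 - h by linarith),
      min_eq_right (show (1 : ℝ) - a ≤ 1 by linarith),
      min_eq_left (show (1 : ℝ) - a ≤ 1 by linarith)]
    ring
  have hlaw : P.map (Gp B h a) = gaussianReal 0 (2 * a) := by
    rw [hG.map_eq_gaussianReal, hmean, hvar]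
    congr 1
    rw [← NNReal.coe_inj, Real.coe_toNNReal _ (by positivity)]
    push_cast
    ring
  have h2 : P {ω | Gp B h a ω ≤ -y} = (P.map (Gp B h a)) (Iic (-y)) := by
    rw [Measure.map_apply (meas_Gp hB h a) measurableSet_Iic]
    rfl
  rw [h2, hlaw]
  have := gauss_tail (2 * a) y hy (by positivity)
  simpa using this

end R974.AT
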