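import Pool.Agent.R974.AT.Core3

set_option autoImplicit false

open MeasureTheory ProbabilityTheory Filter Topology Set
open scoped ENNReal NNReal

universe u

noncomputable section

namespace R974.AT

open Pool.Agent.R974.Span (GBM dq mx measurable_mx le_mx mx_le dense_dq)

variable {Ω : Type u} [MeasurableSpace Ω] {P : Measure Ω} {B : ℝ≥0 → Ω → ℝ}

/-- the running maximum bounds the path -/
lemma le_osc {w : ℝ≥0 → ℝ} (hw : Continuous w) {δ t : ℝ≥0} (ht : t ≤ δ) : |w t| ≤ osc w δ := by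
  have h1 : osc w δ = mx (fun t => |w t|) 0 δ := by
    unfold osc mx
    simp
  rw [h1]
  exact le_mx (w := fun t => |w t|) (hw.abs) zero_le ht

lemma osc_nonneg (w : ℝ≥0 → ℝ) (δ : ℝ≥0) : 0 ≤ osc w δ := Real.iSup_nonneg fun _ => abs_nonneg _

omit [MeasurableSpace Ω] in
lemma OO_nonneg (h δ : ℝ≥0) (ω : Ω) : 0 ≤ OO B h δ ω := add_nonneg (osc_nonneg _ _) (osc_nonneg _ _)

lemma mm_nonneg (hB : GBM B P) (h c : ℝ≥0) (ω : Ω) : 0 ≤ mm B h c ω := by
  have h1 := le_mx (w := fun t => -Vp B h t ω) (cont_Vp hB h ω).neg (a := 0) (b := c) (s := 0)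
    le_rfl zero_le
  have h2 : -Vp B h 0 ω = 0 := by simp [Vp, D]
  rw [h2] at h1
  exact h1

/-- the reflection bound for the minimum -/
lemma mm_bound (hR : S_REFL.{u}) (hB : GBM B P) {h c : ℝ≥0} (hc : 0 < c) (hch : c ≤ h)
    (hc1 : h + c ≤ 1) (y : ℝ) :
    P {ω | mm B h c ω ≤ y} ≤ ENNReal.ofReal (y / √(2 * c)) := by
  have := hB.prob
  by_cases hy : 0 ≤ y
  · have h1 := hR P (fun t => Vp B h t) c 2 hc (by norm_num) (gauss_Vp hB h c)
      (fun t _ => meas_Vp hB h t) (fun ω => by simp [Vp, D]) (fun ω => (cont_Vp hB h ω).continuousOn)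
      (fun t _ => by
        unfold Vp
        rw [integral_sub (int_D hB _ _) (int_D hB _ _), integral_D hB, integral_D hB, sub_zero])
      (fun s t hst htc => cov_Vp hB hch hc1 hst htc) y hy
    refine (measure_mono fun ω hω => ?_).trans h1
    intro u hu
    have h2 := le_mx (w := fun t => -Vp B h t ω) (cont_Vp hB h ω).neg (a := 0) (b := c) (s := u)
      zero_le hu
    have h3 : mm B h c ω ≤ y := hω
    unfold mm at h3
    linarith
  · push Not at hy
    have : {ω | mm B h c ω ≤ y} = ∅ := by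
      ext ω
      simp only [mem_ofPred_eq, mem_empty_iff_false, iff_false, not_le]
      exact hy.trans_le (mm_nonneg hB h c ω)
    rw [this]
    simp

/-- deterministic part -/
lemma det_part (hB : GBM B P) {h δ a c : ℝ≥0} {x : ℝ} (hac : a ≤ c) (hc1 : h + c ≤ 1)
    (hle : 1 - h + δ ≤ 1 - c) (ω : Ω)
    (h1 : ∀ s, s + h ≤ 1 → B s ω < B (s + h) ω)
    (h2 : ∃ s, s + h ≤ 1 + δ ∧ B s ω = B (s + h) ω)
    (h3 : B (1 - a) ω - B 1 ω < -(x * √(a : ℝ))) (hx : 0 ≤ x) :
    mm B h c ω - LL B h δ c ω ≤ D B (1 - h + δ) (1 - c) ω ∧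
    D B (1 - h + δ) (1 - c) ω ≤ OO B h δ ω - LL B h δ c ω ∧
    (Gp B h a ω ≤ -(7 / 4 * (x * √(a : ℝ))) ∨ x * √(a : ℝ) / 4 < OO B h δ ω) := by
  have hh1 : h ≤ 1 := le_self_add.trans hc1
  have hX : D B (1 - h + δ) (1 - c) ω + LL B h δ c ω = B 1 ω - B (1 - h) ω := by
    unfold LL D
    ring
  have hcont := hB.cont ω
  have key1 : ∀ u : ℝ≥0, u ≤ c → -Vp B h u ω < B 1 ω - B (1 - h) ω := by
    intro u hu
    have e : 1 - h - u + h = 1 - u := by
      rw [tsub_right_comm, tsub_add_cancel_of_le]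
      rw [le_tsub_iff_right (hu.trans (le_add_self.trans hc1))]
      exact (add_le_add_right hu h).trans hc1
    have h4 := h1 (1 - h - u) (by rw [e]; exact tsub_le_self)
    rw [e] at h4
    unfold Vp D
    linarith
  have key2 : B 1 ω - B (1 - h) ω ≤ OO B h δ ω := by
    obtain ⟨s, hs1, hs2⟩ := h2
    have hs3 : 1 < s + h := by
      by_contra hcon
      push Not at hcon
      exact absurd hs2 (h1 s hcon).ne
    -- s = (1 - h) + v
    have hs4 : 1 - h ≤ s := tsub_le_iff_right.mpr hs3.le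
    obtain ⟨v, rfl⟩ := exists_add_of_le hs4
    have e : 1 - h + v + h = 1 + v := by
      rw [add_right_comm, tsub_add_cancel_of_le hh1]
    rw [e] at hs1 hs2
    have hv : v ≤ δ := (add_le_add_iff_left 1).mp hs1
    have c1 : Continuous (fun t => B (1 + t) ω - B 1 ω) := by fun_prop
    have c2 : Continuous (fun t => B (1 - h + t) ω - B (1 - h) ω) := by fun_prop
    have o1 := le_osc c1 hv
    have o2 := le_osc c2 hv
    have a1 := neg_abs_le (B (1 + v) ω - B 1 ω)
    have a2 := le_abs_self (B (1 - h + v) ω - B (1 - h) ω)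
    unfold OO
    linarith
  refine ⟨?_, ?_, ?_⟩
  · have : mm B h c ω ≤ B 1 ω - B (1 - h) ω := by
      unfold mm
      exact mx_le zero_le fun u _ hu => (key1 u hu).le
    linarith
  · linarith
  · by_cases hO : x * √(a : ℝ) / 4 < OO B h δ ω
    · exact Or.inr hO
    · left
      push Not at hO
      have h4 := key1 a hac
      have h5 : Gp B h a ω = 2 * (B (1 - a) ω - B 1 ω) - Vp B h a ω := by
        unfold Gp Vp D
        ring
      rw [h5]
      linarith

/-- the scalar inequality under the integral -/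
lemma scalar_ineq (O G x : ℝ) (a : ℝ) (ha : 0 < a) (hx : 1 ≤ x) (hO : 0 ≤ O)
    (h : G ≤ -(7 / 4 * (x * √a)) ∨ x * √a / 4 < O) :
    ENNReal.ofReal (O ^ 2) ≤
      (if G ≤ -(7 / 4 * (x * √a)) then 1 else 0) * ENNReal.ofReal (O ^ 2) +
        ENNReal.ofReal (16 / a) * ENNReal.ofReal (O ^ 4) := by
  by_cases hG : G ≤ -(7 / 4 * (x * √a))
  · rw [if_pos hG, one_mul]
    exact le_self_add
  · rw [if_neg hG, zero_mul, zero_add, ← ENNReal.ofReal_mul (by positivity)]
    apply ENNReal.ofReal_le_ofReal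
    have h1 : x * √a / 4 < O := h.resolve_left hG
    have hs : 0 < √a := Real.sqrt_pos.mpr ha
    have h2 : √a / 4 ≤ O := by
      have : √a ≤ x * √a := by nlinarith
      linarith
    have h3 : a / 16 ≤ O ^ 2 := by
      have : (√a / 4) ^ 2 ≤ O ^ 2 := by gcongr
      rw [div_pow, Real.sq_sqrt ha.le] at this
      norm_num at this
      linarith
    have h4 : 1 ≤ 16 / a * O ^ 2 := by
      rw [div_mul_eq_mul_div, le_div_iff₀ ha]
      linarith
    have h5 : 0 ≤ O ^ 2 := sq_nonneg O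
    calc O ^ 2 = 1 * O ^ 2 := (one_mul _).symm
      _ ≤ (16 / a * O ^ 2) * O ^ 2 := by gcongr
      _ = 16 / a * O ^ 4 := by ring

lemma pow4 (p q : ℝ) : (p + q) ^ 4 ≤ 8 * p ^ 4 + 8 * q ^ 4 := by
  have q1 : (p + q) ^ 2 ≤ 2 * (p ^ 2 + q ^ 2) := by nlinarith [sq_nonneg (p - q)]
  have q2 : ((p + q) ^ 2) ^ 2 ≤ (2 * (p ^ 2 + q ^ 2)) ^ 2 := by
    have := sq_nonneg (p + q)
    gcongr
  have q3 : (p ^ 2 + q ^ 2) ^ 2 ≤ 2 * (p ^ 4 + q ^ 4) := by nlinarith [sq_nonneg (p ^ 2 - q ^ 2)]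
  calc (p + q) ^ 4 = ((p + q) ^ 2) ^ 2 := by ring
    _ ≤ (2 * (p ^ 2 + q ^ 2)) ^ 2 := q2
    _ = 4 * (p ^ 2 + q ^ 2) ^ 2 := by ring
    _ ≤ 4 * (2 * (p ^ 4 + q ^ 4)) := by gcongr
    _ = _ := by ring

lemma pow2 (p q : ℝ) : (p + q) ^ 2 ≤ 2 * p ^ 2 + 2 * q ^ 2 := by nlinarith [sq_nonneg (p - q)]

set_option maxHeartbeats 1000000 in
theorem core (hR : S_REFL.{u}) (hS : S_SUPM.{u}) : S_CORE.{u} := by
  intro ε hε hε4
  obtain ⟨K, hK, hSup⟩ := hS
  have hε0 : (0 : ℝ) < ε := hε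
  set k0 : ℝ := (√(2 * Real.pi * (ε / 4)))⁻¹ with hk0
  set k1 : ℝ := (√(ε : ℝ))⁻¹ with hk1
  have hk0p : 0 < k0 := by rw [hk0]; positivity
  have hk1p : 0 < k1 := by rw [hk1]; positivity
  refine ⟨k0 * k1 * (256 * K), by positivity, ?_⟩
  intro Ω _ P B hB h δ a x hεh hh1 hδ hδε ha haε hx
  have hPp := hB.prob
  set c : ℝ≥0 := ε / 2 with hc
  have hcr : (c : ℝ) = ε / 2 := by rw [hc]; push_cast; ring
  have hεh' : (ε : ℝ) ≤ h := hεh
  have hεle1 : ε ≤ 1 := by
    have : (ε : ℝ) ≤ 1 := by linarith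
    exact_mod_cast this
  have hh1' : (h : ℝ) ≤ 1 - ε := by
    have := NNReal.coe_le_coe.mpr hh1
    rw [NNReal.coe_sub hεle1] at this
    simpa using this
  have hc0 : 0 < c := by rw [hc]; positivity
  have hch : c ≤ h := by rw [← NNReal.coe_le_coe, hcr]; linarith
  have hcδ : c + δ ≤ h := by
    rw [← NNReal.coe_le_coe]; push_cast; rw [hcr]; linarith
  have hc1 : h + c ≤ 1 := by
    rw [← NNReal.coe_le_coe]; push_cast; rw [hcr]; linarith
  have hac : a ≤ c := by rw [← NNReal.coe_le_coe, hcr]; exact haε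
  have hh : h ≤ 1 := le_self_add.trans hc1
  have hc1le : c ≤ 1 := le_add_self.trans hc1
  have e1 : ((1 - h : ℝ≥0) : ℝ) = 1 - h := by rw [NNReal.coe_sub hh]; simp
  have e2 : ((1 - c : ℝ≥0) : ℝ) = 1 - c := by rw [NNReal.coe_sub hc1le]; simp
  have hle : 1 - h + δ ≤ 1 - c := by
    rw [← NNReal.coe_le_coe]; push_cast; rw [e1, e2, hcr]; linarith
  set v : ℝ≥0 := (1 - c) - (1 - h + δ) with hv
  have hvr : (v : ℝ) = h - c - δ := by
    rw [hv, NNReal.coe_sub hle]; push_cast; rw [e1, e2]; ring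
  have hvε : (ε : ℝ) / 4 ≤ v := by rw [hvr, hcr]; linarith
  have hv0 : v ≠ 0 := by
    intro h0
    rw [h0] at hvε
    simp at hvε
    linarith
  have hlaw := law_D hB hle
  rw [← hv] at hlaw
  set A0 : Set (ℝ × ℝ) := {q | q.2 ≤ -(7 / 4 * (x * √(a : ℝ))) ∨ x * √(a : ℝ) / 4 < q.1} with hA0
  have hA0m : MeasurableSet A0 := by
    refine MeasurableSet.union ?_ ?_
    · exact measurableSet_le measurable_snd measurable_const
    · exact measurableSet_lt measurable_const measurable_fst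
  set A : Set (ℝ × ℝ × ℝ × ℝ) := {w | w.2.2 ∈ A0} with hA
  have hAm : MeasurableSet A := (measurable_snd.comp measurable_snd) hA0m
  set W : Ω → ℝ × ℝ × ℝ × ℝ := fun ω => (mm B h c ω, LL B h δ c ω, OO B h δ ω, Gp B h a ω) with hW
  have hWm : Measurable W := (meas_mm hB h c).prodMk ((meas_LL hB h δ c).prodMk
    ((meas_OO hB h δ).prodMk (meas_Gp hB h a)))
  have step1 := density hPp (meas_D hB _ _) hWm (indep_U hB (δ := δ) hac hle) hv0 hlaw
    (f := fun w => w.1 - w.2.1) (g := fun w => w.2.2.1 - w.2.1) (by fun_prop) (by fun_prop) hAm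
  have step0 : P {ω | (∀ s, s + h ≤ 1 → B s ω < B (s + h) ω) ∧
        (∃ s, s + h ≤ 1 + δ ∧ B s ω = B (s + h) ω) ∧
        B (1 - a) ω - B 1 ω < -(x * √(a : ℝ))} ≤
      P {ω | (W ω).1 - (W ω).2.1 ≤ D B (1 - h + δ) (1 - c) ω ∧
        D B (1 - h + δ) (1 - c) ω ≤ (W ω).2.2.1 - (W ω).2.1 ∧ W ω ∈ A} := by
    refine measure_mono fun ω hω => ?_
    exact det_part hB hac hc1 hle ω hω.1 hω.2.1 hω.2.2 (by linarith)
  refine step0.trans (step1.trans ?_)
  set κ : ℝ := (√(2 * Real.pi * v))⁻¹ with hκ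
  have hκ0 : 0 ≤ κ := by rw [hκ]; positivity
  have hκk : κ ≤ k0 := by
    rw [hκ, hk0]
    apply inv_anti₀ (by positivity)
    apply Real.sqrt_le_sqrt
    have := Real.pi_pos
    gcongr
  -- step 2
  set F : ℝ × ℝ → ℝ≥0∞ := A0.indicator (fun q => ENNReal.ofReal (κ * q.1)) with hF
  have hFm : Measurable F := Measurable.indicator (by fun_prop) hA0m
  have step2 : ∫⁻ ω, A.indicator (fun w => ENNReal.ofReal (κ * ((w.2.2.1 - w.2.1) - (w.1 - w.2.1))))
      (W ω) ∂P ≤ ∫⁻ ω, (if mm B h c ω ≤ OO B h δ ω then F (OO B h δ ω, Gp B h a ω) else 0) ∂P := by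
    refine lintegral_mono fun ω => ?_
    have hm0 := mm_nonneg hB h c ω
    by_cases hmem : W ω ∈ A
    · rw [indicator_of_mem hmem]
      have hmem0 : (OO B h δ ω, Gp B h a ω) ∈ A0 := hmem
      have e3 : ((W ω).2.2.1 - (W ω).2.1) - ((W ω).1 - (W ω).2.1) = OO B h δ ω - mm B h c ω := by
        simp only [hW]
        ring
      rw [e3]
      split_ifs with hmo
      · rw [hF, indicator_of_mem hmem0]
        apply ENNReal.ofReal_le_ofReal
        simp only
        gcongr
        linarith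
      · push Not at hmo
        rw [ENNReal.ofReal_of_nonpos]
        exact mul_nonpos_of_nonneg_of_nonpos hκ0 (by linarith)
    · rw [indicator_of_notMem hmem]
      exact zero_le
  refine step2.trans ?_
  -- step 3
  have step3 := indep_int hPp (meas_mm hB h c) ((meas_OO hB h δ).prodMk (meas_Gp hB h a))
    (indep_m hB (a := a) hcδ hc1 hac) (F := F) (o := fun q => q.1) hFm measurable_fst
    (G := fun y => ENNReal.ofReal (y / √(2 * c))) (by fun_prop)
    (fun y => mm_bound hR hB hc0 hch hc1 y)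
  refine step3.trans ?_
  simp only
  have hsq : √(2 * (c : ℝ)) = √(ε : ℝ) := by rw [hcr]; congr 1; ring
  have hGm := meas_Gp hB h a
  have hOm := meas_OO hB h δ
  set g1 : Ω → ℝ≥0∞ := fun ω => if Gp B h a ω ≤ -(7 / 4 * (x * √(a : ℝ))) then 1 else 0 with hg1
  have hg1m : Measurable g1 := Measurable.ite (measurableSet_le hGm measurable_const)
    measurable_const measurable_const
  have hO2m : Measurable (fun ω => ENNReal.ofReal (OO B h δ ω ^ 2)) := by fun_prop
  have hO4m : Measurable (fun ω => ENNReal.ofReal (OO B h δ ω ^ 4)) := by fun_prop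
  -- pointwise bound
  have step4 : ∀ ω, F (OO B h δ ω, Gp B h a ω) * ENNReal.ofReal (OO B h δ ω / √(2 * c)) ≤
      ENNReal.ofReal (k0 * k1) * (g1 ω *
        ENNReal.ofReal (OO B h δ ω ^ 2) + ENNReal.ofReal (16 / a) * ENNReal.ofReal (OO B h δ ω ^ 4)) := by
    intro ω
    have hO := OO_nonneg (B := B) h δ ω
    by_cases hmem : (OO B h δ ω, Gp B h a ω) ∈ A0
    · rw [hF, indicator_of_mem hmem]
      simp only
      have h5 := scalar_ineq (OO B h δ ω) (Gp B h a ω) x a ha hx hO hmem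
      calc ENNReal.ofReal (κ * OO B h δ ω) * ENNReal.ofReal (OO B h δ ω / √(2 * c))
          = ENNReal.ofReal (κ * OO B h δ ω * (OO B h δ ω / √(2 * c))) := by
            rw [← ENNReal.ofReal_mul (by positivity)]
        _ ≤ ENNReal.ofReal (k0 * k1 * OO B h δ ω ^ 2) := by
            apply ENNReal.ofReal_le_ofReal
            rw [hsq, hk1]
            have : κ * OO B h δ ω * (OO B h δ ω / √(ε : ℝ)) =
              κ * (√(ε : ℝ))⁻¹ * OO B h δ ω ^ 2 := by
              rw [div_eq_mul_inv]; ring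
            rw [this]
            gcongr
        _ = ENNReal.ofReal (k0 * k1) * ENNReal.ofReal (OO B h δ ω ^ 2) := by
            rw [← ENNReal.ofReal_mul (by positivity)]
        _ ≤ _ := by gcongr
    · rw [hF, indicator_of_notMem hmem, zero_mul]
      exact zero_le
  refine (lintegral_mono step4).trans ?_
  rw [lintegral_const_mul _ (by fun_prop), lintegral_add_left (by fun_prop),
    lintegral_const_mul _ hO4m]
  -- independence of the sum and the oscillation
  have hind : IndepFun g1 (fun ω => ENNReal.ofReal (OO B h δ ω ^ 2)) P := by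
    have := indep_G (a := a) hB hle hac
    exact this.comp (φ := fun y => if y ≤ -(7 / 4 * (x * √(a : ℝ))) then (1 : ℝ≥0∞) else 0)
      (ψ := fun y => ENNReal.ofReal (y ^ 2))
      (Measurable.ite measurableSet_Iic measurable_const measurable_const) (by fun_prop)
  have hprod : ∫⁻ ω, g1 ω * ENNReal.ofReal (OO B h δ ω ^ 2) ∂P =
      (∫⁻ ω, g1 ω ∂P) * ∫⁻ ω, ENNReal.ofReal (OO B h δ ω ^ 2) ∂P :=
    lintegral_mul_eq_lintegral_mul_lintegral_of_indepFun hg1m hO2m hind
  rw [hprod]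
  -- the tail
  have htail : ∫⁻ ω, g1 ω ∂P ≤ ENNReal.ofReal (Real.exp (-(3 / 4) * x ^ 2)) := by
    have h6 : ∫⁻ ω, g1 ω ∂P = P {ω | Gp B h a ω ≤ -(7 / 4 * (x * √(a : ℝ)))} := by
      have : g1 = ({ω | Gp B h a ω ≤ -(7 / 4 * (x * √(a : ℝ)))}).indicator 1 := by
        funext ω
        simp only [hg1, indicator_apply, mem_ofPred_eq, Pi.one_apply]
      rw [this, lintegral_indicator_one (measurableSet_le hGm measurable_const)]
    rw [h6]
    refine (tail_G hB hc1 hch hac ha (7 / 4 * (x * √(a : ℝ))) (by positivity)).trans ?_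
    apply ENNReal.ofReal_le_ofReal
    apply Real.exp_le_exp.mpr
    have ha' : (0 : ℝ) < a := ha
    have : (7 / 4 * (x * √(a : ℝ))) ^ 2 / (2 * (2 * a)) = 49 / 64 * x ^ 2 := by
      rw [mul_pow, mul_pow, Real.sq_sqrt ha'.le]
      field_simp
      ring
    rw [this]
    nlinarith [sq_nonneg x]
  -- moments
  have s1 := hSup P (fun t ω => B (1 + t) ω - B 1 ω) (hB.shift 1) δ
  have s2 := hSup P (fun t ω => B (1 - h + t) ω - B (1 - h) ω) (hB.shift (1 - h)) δ
  have hδ0 : (0 : ℝ) ≤ δ := δ.2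
  have m1 : Measurable (fun ω => osc (fun t => B (1 + t) ω - B 1 ω) δ) := meas_osc hB 1 δ
  have m2 : Measurable (fun ω => osc (fun t => B (1 - h + t) ω - B (1 - h) ω) δ) :=
    meas_osc hB (1 - h) δ
  have hM2 : ∫⁻ ω, ENNReal.ofReal (OO B h δ ω ^ 2) ∂P ≤ ENNReal.ofReal (4 * K * δ) := by
    calc ∫⁻ ω, ENNReal.ofReal (OO B h δ ω ^ 2) ∂P
        ≤ ∫⁻ ω, (2 * ENNReal.ofReal (osc (fun t => B (1 + t) ω - B 1 ω) δ ^ 2) +
            2 * ENNReal.ofReal (osc (fun t => B (1 - h + t) ω - B (1 - h) ω) δ ^ 2)) ∂P := by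
          refine lintegral_mono fun ω => ?_
          have e2 : (2 : ℝ≥0∞) = ENNReal.ofReal 2 := by simp
          rw [e2, ← ENNReal.ofReal_mul (by norm_num), ← ENNReal.ofReal_mul (by norm_num),
            ← ENNReal.ofReal_add (by positivity) (by positivity)]
          apply ENNReal.ofReal_le_ofReal
          exact pow2 _ _
      _ ≤ 2 * ENNReal.ofReal (K * δ) + 2 * ENNReal.ofReal (K * δ) := by
          rw [lintegral_add_left (by fun_prop), lintegral_const_mul _ (by fun_prop),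
            lintegral_const_mul _ (by fun_prop)]
          gcongr
          · exact s1.1
          · exact s2.1
      _ = ENNReal.ofReal (4 * K * δ) := by
          have e2 : (2 : ℝ≥0∞) = ENNReal.ofReal 2 := by simp
          rw [e2, ← ENNReal.ofReal_mul (by norm_num), ← ENNReal.ofReal_add (by positivity)
            (by positivity)]
          congr 1
          ring
  have hM4 : ∫⁻ ω, ENNReal.ofReal (OO B h δ ω ^ 4) ∂P ≤ ENNReal.ofReal (16 * K * δ ^ 2) := by
    calc ∫⁻ ω, ENNReal.ofReal (OO B h δ ω ^ 4) ∂P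
        ≤ ∫⁻ ω, (8 * ENNReal.ofReal (osc (fun t => B (1 + t) ω - B 1 ω) δ ^ 4) +
            8 * ENNReal.ofReal (osc (fun t => B (1 - h + t) ω - B (1 - h) ω) δ ^ 4)) ∂P := by
          refine lintegral_mono fun ω => ?_
          have e2 : (8 : ℝ≥0∞) = ENNReal.ofReal 8 := by simp
          rw [e2, ← ENNReal.ofReal_mul (by norm_num), ← ENNReal.ofReal_mul (by norm_num),
            ← ENNReal.ofReal_add (by positivity) (by positivity)]
          apply ENNReal.ofReal_le_ofReal
          exact pow4 _ _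
      _ ≤ 8 * ENNReal.ofReal (K * δ ^ 2) + 8 * ENNReal.ofReal (K * δ ^ 2) := by
          rw [lintegral_add_left (by fun_prop), lintegral_const_mul _ (by fun_prop),
            lintegral_const_mul _ (by fun_prop)]
          gcongr
          · exact s1.2
          · exact s2.2
      _ = ENNReal.ofReal (16 * K * δ ^ 2) := by
          have e2 : (8 : ℝ≥0∞) = ENNReal.ofReal 8 := by simp
          rw [e2, ← ENNReal.ofReal_mul (by norm_num), ← ENNReal.ofReal_add (by positivity)
            (by positivity)]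
          congr 1
          ring
  have ha' : (0 : ℝ) < a := ha
  calc ENNReal.ofReal (k0 * k1) * ((∫⁻ ω, g1 ω ∂P) * (∫⁻ ω, ENNReal.ofReal (OO B h δ ω ^ 2) ∂P) +
        ENNReal.ofReal (16 / a) * ∫⁻ ω, ENNReal.ofReal (OO B h δ ω ^ 4) ∂P)
      ≤ ENNReal.ofReal (k0 * k1) * (ENNReal.ofReal (Real.exp (-(3 / 4) * x ^ 2)) *
          ENNReal.ofReal (4 * K * δ) + ENNReal.ofReal (16 / a) * ENNReal.ofReal (16 * K * δ ^ 2)) := by
        gcongr
    _ = ENNReal.ofReal (k0 * k1 * (Real.exp (-(3 / 4) * x ^ 2) * (4 * K * δ) +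
          16 / a * (16 * K * δ ^ 2))) := by
        rw [← ENNReal.ofReal_mul (by positivity), ← ENNReal.ofReal_mul (by positivity),
          ← ENNReal.ofReal_add (by positivity) (by positivity), ← ENNReal.ofReal_mul (by positivity)]
    _ ≤ _ := by
        apply ENNReal.ofReal_le_ofReal
        have hE : 0 < Real.exp (-(3 / 4) * x ^ 2) := Real.exp_pos _
        have q3 : Real.exp (-(3 / 4) * x ^ 2) * (4 * K * δ) ≤
            256 * K * (δ * Real.exp (-(3 / 4) * x ^ 2)) := by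
          have : 0 ≤ K * (δ * Real.exp (-(3 / 4) * x ^ 2)) := by positivity
          nlinarith
        have q4 : 16 / (a : ℝ) * (16 * K * δ ^ 2) = 256 * K * (δ ^ 2 / a) := by
          field_simp
          ring
        rw [q4]
        calc k0 * k1 * (Real.exp (-(3 / 4) * x ^ 2) * (4 * K * δ) + 256 * K * (δ ^ 2 / a))
            ≤ k0 * k1 * (256 * K * (δ * Real.exp (-(3 / 4) * x ^ 2)) + 256 * K * (δ ^ 2 / a)) := by
              gcongr
          _ = _ := by ring

end R974.AT
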