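import Pool.Agent.R974.Span.BM

/-!
# Atoms in the laws of Brownian span-set statistics (MP_097655_pr)

Definitions and exact statements of the pieces.  `Pool.Agent.R974.Span.GBM B P` says that `B` is a
Brownian motion with all paths continuous, started at `0`, with measurable coordinates.
-/

set_option autoImplicit false

open MeasureTheory ProbabilityTheory Filter Topology Set
open scoped ENNReal NNReal

universe u

noncomputable section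

namespace R974.AT

open Pool.Agent.R974.Span (GBM dq mx)

/-- The span set of the path `w` up to time `t`. -/
def Sp (w : ℝ≥0 → ℝ) (t : ℝ≥0) : Set ℝ :=
  {h | ∃ s u : ℝ≥0, s ≤ u ∧ u ≤ t ∧ w s = w u ∧ h = (u : ℝ) - s}

/-- Lebesgue measure of the span set. -/
def SS (w : ℝ≥0 → ℝ) (t : ℝ≥0) : ℝ := (volume (Sp w t)).toReal

/-- First positive time difference which is not a span. -/
def TT (w : ℝ≥0 → ℝ) (t : ℝ≥0) : ℝ := sInf {h : ℝ | 0 < h ∧ h ∉ Sp w t}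

/-- Lengths of the complete excursions from all levels up to time `t`. -/
def Exc (w : ℝ≥0 → ℝ) (t : ℝ≥0) : Set ℝ :=
  {l | ∃ p q : ℝ≥0, p < q ∧ q ≤ t ∧ w p = w q ∧ (∀ u, p < u → u < q → w u ≠ w p) ∧
    l = (q : ℝ) - p}

/-- The length of the longest complete excursion up to time `t`. -/
def RR (w : ℝ≥0 → ℝ) (t : ℝ≥0) : ℝ := sSup (Exc w t)

/-- Brownian scaling of a path. -/
def scl (a : ℝ≥0) (w : ℝ≥0 → ℝ) : ℝ≥0 → ℝ := fun t => (√(a : ℝ))⁻¹ * w (a * t)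

/-! ## Statements of the pieces -/

/-- LAW: uniqueness of the law of Brownian motion on the product space. -/
def S_LAW : Prop :=
  ∀ {Ω Ω' : Type u} [MeasurableSpace Ω] [MeasurableSpace Ω'] (P : Measure Ω) (P' : Measure Ω')
    (B : ℝ≥0 → Ω → ℝ) (B' : ℝ≥0 → Ω' → ℝ), GBM B P → GBM B' P' →
    ∀ M : Set (ℝ≥0 → ℝ), MeasurableSet M →
    P {ω | (fun t => B t ω) ∈ M} = P' {ω | (fun t => B' t ω) ∈ M}

/-- SCL: Brownian scaling and scaling of the three functionals. -/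
def S_SCL : Prop :=
  (∀ {Ω : Type u} [MeasurableSpace Ω] (P : Measure Ω) (B : ℝ≥0 → Ω → ℝ), GBM B P →
    ∀ a : ℝ≥0, 0 < a → GBM (fun t ω => scl a (fun s => B s ω) t) P) ∧
  ∀ (w : ℝ≥0 → ℝ) (a t : ℝ≥0), 0 < a →
    SS (scl a w) t = SS w (a * t) / a ∧ TT (scl a w) t = TT w (a * t) / a ∧
    RR (scl a w) t = RR w (a * t) / a

/-- MSET: the events `X = v` are measurable for the three functionals. -/
def S_MSET : Prop :=
  ∀ (t : ℝ≥0) (v : ℝ), 0 < t →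
    (∃ M : Set (ℝ≥0 → ℝ), MeasurableSet M ∧ ∀ w, Continuous w → (w ∈ M ↔ SS w t = v)) ∧
    (∃ M : Set (ℝ≥0 → ℝ), MeasurableSet M ∧ ∀ w, Continuous w → (w ∈ M ↔ TT w t = v)) ∧
    (∃ M : Set (ℝ≥0 → ℝ), MeasurableSet M ∧ ∀ w, Continuous w → (w ∈ M ↔ RR w t = v))

/-- MJOINT: joint measurability of `h ∈ Sp` for a process with continuous paths. -/
def S_MJOINT : Prop :=
  ∀ {Ω : Type u} [MeasurableSpace Ω] (B : ℝ≥0 → Ω → ℝ), (∀ t, Measurable (B t)) →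
    (∀ ω, Continuous (fun t => B t ω)) → ∀ t : ℝ≥0,
    MeasurableSet {q : ℝ × Ω | q.1 ∈ Sp (fun s => B s q.2) t}

/-- REFL: one half of the reflection principle.  The process is only used on `[0, c]`. -/
def S_REFL : Prop :=
  ∀ {Ω : Type u} [MeasurableSpace Ω] (P : Measure Ω) [IsProbabilityMeasure P]
    (V : ℝ≥0 → Ω → ℝ) (c : ℝ≥0) (σ : ℝ), 0 < c → 0 < σ →
    IsGaussianProcess (fun t : Set.Iic c => V t) P →
    (∀ t, t ≤ c → Measurable (V t)) → (∀ ω, V 0 ω = 0) →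
    (∀ ω, ContinuousOn (fun t => V t ω) (Set.Iic c)) →
    (∀ t, t ≤ c → ∫ ω, V t ω ∂P = 0) →
    (∀ s t, s ≤ t → t ≤ c → cov[V s, V t; P] = σ * s) →
    ∀ y : ℝ, 0 ≤ y → P {ω | ∀ u, u ≤ c → -y ≤ V u ω} ≤ ENNReal.ofReal (y / √(σ * c))

/-- running maximum of the absolute value over `[0, δ]` (a countable supremum) -/
def osc (w : ℝ≥0 → ℝ) (δ : ℝ≥0) : ℝ := ⨆ n, |w (min (dq n) δ)|

/-- SUPM: second and fourth moments of the running maximum. -/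
def S_SUPM : Prop :=
  ∃ K : ℝ, 0 < K ∧ ∀ {Ω : Type u} [MeasurableSpace Ω] (P : Measure Ω) (B : ℝ≥0 → Ω → ℝ),
    GBM B P → ∀ δ : ℝ≥0,
    ∫⁻ ω, ENNReal.ofReal (osc (fun t => B t ω) δ ^ 2) ∂P ≤ ENNReal.ofReal (K * δ) ∧
    ∫⁻ ω, ENNReal.ofReal (osc (fun t => B t ω) δ ^ 4) ∂P ≤ ENNReal.ofReal (K * δ ^ 2)

/-- FIX: with high probability the path has a deep dip before a fixed time at one of `n` scales,
`n` being smaller than `exp (3 x ^ 2 / 4)`. -/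
def S_FIX : Prop :=
  ∀ (c θ : ℝ), 0 < c → c < 1 → 0 < θ → ∃ (x : ℝ) (n : ℕ) (a : ℕ → ℝ≥0), 1 ≤ x ∧
    (∀ k, k < n → 0 < a k ∧ (a k : ℝ) ≤ c) ∧ n * Real.exp (-(3 / 4) * x ^ 2) ≤ θ ∧
    ∀ {Ω : Type u} [MeasurableSpace Ω] (P : Measure Ω) (B : ℝ≥0 → Ω → ℝ), GBM B P →
    P {ω | ∀ k, k < n → -(x * √(a k : ℝ)) ≤ B (1 - a k) ω - B 1 ω} ≤ ENNReal.ofReal θ

/-- CORE: the main estimate for a fixed span `h`.  `C` depends only on `ε`. -/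
def S_CORE : Prop :=
  ∀ ε : ℝ≥0, 0 < ε → (ε : ℝ) < 1 / 4 → ∃ C : ℝ, 0 < C ∧
    ∀ {Ω : Type u} [MeasurableSpace Ω] (P : Measure Ω) (B : ℝ≥0 → Ω → ℝ), GBM B P →
    ∀ (h δ a : ℝ≥0) (x : ℝ), ε ≤ h → h ≤ 1 - ε → 0 < δ → (δ : ℝ) ≤ ε / 4 → 0 < a →
    (a : ℝ) ≤ ε / 2 → 1 ≤ x →
    P {ω | (∀ s, s + h ≤ 1 → B s ω < B (s + h) ω) ∧
        (∃ s, s + h ≤ 1 + δ ∧ B s ω = B (s + h) ω) ∧
        B (1 - a) ω - B 1 ω < -(x * √(a : ℝ))} ≤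
      ENNReal.ofReal (C * (δ * Real.exp (-(3 / 4) * x ^ 2) + δ ^ 2 / a))

/-- OSCL: at a fixed time a Brownian path oscillates around its value, before that time. -/
def S_OSCL : Prop :=
  ∀ {Ω : Type u} [MeasurableSpace Ω] (P : Measure Ω) (B : ℝ≥0 → Ω → ℝ), GBM B P →
    ∀ᵐ ω ∂P, ∀ ε : ℝ≥0, 0 < ε → (∃ u : ℝ≥0, 1 - ε < u ∧ u < 1 ∧ B u ω < B 1 ω) ∧
      ∃ u : ℝ≥0, 1 - ε < u ∧ u < 1 ∧ B 1 ω < B u ω

/-- RDET: deterministic facts on the longest excursion. -/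
def S_RDET : Prop :=
  ∀ w : ℝ≥0 → ℝ, Continuous w →
    (∀ ε : ℝ≥0, 0 < ε → (∃ u : ℝ≥0, 1 - ε < u ∧ u < 1 ∧ w u < w 1) ∧
      ∃ u : ℝ≥0, 1 - ε < u ∧ u < 1 ∧ w 1 < w u) →
    0 < RR w 1 ∧ (∃ r : ℝ≥0, 1 < r ∧ ∀ t, 1 ≤ t → t ≤ r → RR w t = RR w 1) ∧
    (∀ h : ℝ, 0 ≤ h → h ≤ RR w 1 → h ∈ Sp w 1)

/-- TDET: deterministic fact on the first gap of the span set. -/
def S_TDET : Prop :=
  ∀ w : ℝ≥0 → ℝ, Continuous w → ∀ (c : ℝ) (r : ℝ≥0), 0 < c → 1 < r → TT w 1 = c →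
    TT w r = c * r → ∃ s u : ℝ≥0, 1 ≤ u ∧ u ≤ r ∧ s ≤ u ∧ w s = w u ∧ c ≤ (u : ℝ) - s ∧
      (u : ℝ) - s ≤ c * r

/-- PAIR: a pigeonhole for events of the same probability. -/
def S_PAIR : Prop :=
  ∀ p : ℝ≥0∞, 0 < p → ∃ (N : ℕ) (q : ℝ≥0∞), 0 < q ∧
    ∀ {Ω : Type u} [MeasurableSpace Ω] (P : Measure Ω) [IsProbabilityMeasure P]
      (A : ℕ → Set Ω), (∀ i, MeasurableSet (A i)) → (∀ i, P (A i) = p) →
      ∃ i j, i < j ∧ j < N ∧ q ≤ P (A i ∩ A j)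

/-- KEY: the measure of the span set grows by `o(δ)` in probability after a fixed time. -/
def S_KEY : Prop :=
  ∀ {Ω : Type u} [MeasurableSpace Ω] (P : Measure Ω) (B : ℝ≥0 → Ω → ℝ), GBM B P →
    ∀ η θ : ℝ, 0 < η → 0 < θ → ∃ r₀ : ℝ≥0, 1 < r₀ ∧ ∀ r : ℝ≥0, 1 < r → r < r₀ →
    P {ω | η * ((r : ℝ) - 1) ≤ SS (fun t => B t ω) r - SS (fun t => B t ω) 1} ≤ ENNReal.ofReal θ

end R974.AT
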