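import Pool.Agent.R974.AT.Core4
import Pool.Agent.Helper348.AT.Law
import Pool.Agent.R961.AT_SCL
import Pool.Agent.R961.AT_MJOINT
import Pool.Agent.R444.AT_MSET
import Pool.Agent.R662.AT_REFL
import Pool.Agent.R771.AT_SUPM
import Pool.Agent.R472.AT_FIX
import Pool.Agent.R46.AT_OSCL
import Pool.Agent.R74.AT_RDET
import Pool.Agent.R958.AT.PAIR
import Pool.Agent.R396.AT_KEY

set_option autoImplicit false

open MeasureTheory ProbabilityTheory Filter Topology Set
open scoped ENNReal NNReal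

universe u

noncomputable section

namespace R974.AT

open Pool.Agent.R974.Span (GBM dq mx measurable_mx le_mx mx_le dense_dq eval_noatom)

variable {Ω : Type u} [MeasurableSpace Ω] {P : Measure Ω} {B : ℝ≥0 → Ω → ℝ}

theorem law' : S_LAW.{u} := Pool.Agent.Helper348.AT.law
theorem tdet' : S_TDET := Pool.Agent.Helper348.AT.tdet
theorem scl' : S_SCL.{u} := R961.AT_SCL.scl_main
theorem mset' : S_MSET := Pool.Agent.R444.ATM.mset_thm
theorem refl' : S_REFL.{u} := Pool.Agent.R662.ATREFL.refl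
theorem supm' : S_SUPM.{u} := R771.AT.supm
theorem oscl' : S_OSCL.{u} := R974.AT.OSCL46.oscl refl'
theorem rdet' : S_RDET := Pool.Agent.R74.AT.rdet
theorem pair' : S_PAIR.{u} := R958.AT.pair
theorem key' : S_KEY.{u} :=
  R396.ATKEY.key (core refl' supm') Pool.R472.AT.fix R961.AT_MJOINT.mjoint oscl' rdet'

/-- the path as a measurable map -/
lemma meas_path (hB : GBM B P) : Measurable (fun ω t => B t ω) :=
  measurable_pi_lambda _ fun t => hB.meas t

/-- the general argument: scaling and the pigeonhole -/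
lemma no_atom (X : (ℝ≥0 → ℝ) → ℝ≥0 → ℝ)
    (hM : ∀ (t : ℝ≥0) (v : ℝ), 0 < t → ∃ M : Set (ℝ≥0 → ℝ), MeasurableSet M ∧
      ∀ w, Continuous w → (w ∈ M ↔ X w t = v))
    (hscl : ∀ (w : ℝ≥0 → ℝ) (a t : ℝ≥0), 0 < a → X (scl a w) t = X w (a * t) / a)
    (hB : GBM B P) (c : ℝ)
    (hlim : ∀ q : ℝ≥0∞, 0 < q → ∃ r₀ : ℝ≥0, 1 < r₀ ∧ ∀ r : ℝ≥0, 1 < r → r < r₀ →
      P {ω | X (fun t => B t ω) 1 = c ∧ X (fun t => B t ω) r = c * r} < q) :
    P {ω | X (fun t => B t ω) 1 = c} = 0 := by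
  have hPp := hB.prob
  by_contra hne
  set p : ℝ≥0∞ := P {ω | X (fun t => B t ω) 1 = c} with hp
  have hp0 : 0 < p := pos_iff_ne_zero.mpr hne
  obtain ⟨N, q, hq, hN⟩ := pair'.{u} p hp0
  obtain ⟨r₀, hr₀, hr⟩ := hlim q hq
  -- the times
  have hr₀' : (1 : ℝ) < r₀ := hr₀
  let tm : ℕ → ℝ≥0 := fun i => 1 + (r₀ - 1) * (1 - 1 / ((i : ℝ≥0) + 2))
  have hfrac : ∀ i : ℕ, 1 / ((i : ℝ≥0) + 2) < 1 := by
    intro i
    rw [div_lt_one (by positivity)]
    have : (0 : ℝ≥0) ≤ i := zero_le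
    calc (1 : ℝ≥0) < 2 := by norm_num
      _ ≤ (i : ℝ≥0) + 2 := le_add_self
  have htr : ∀ i, ((tm i : ℝ≥0) : ℝ) = 1 + ((r₀ : ℝ) - 1) * (1 - 1 / ((i : ℝ) + 2)) := by
    intro i
    simp only [tm]
    push_cast
    rw [NNReal.coe_sub hr₀.le, NNReal.coe_sub (hfrac i).le]
    push_cast
    ring
  have htm1 : ∀ i, 1 ≤ tm i := fun i => le_self_add
  have htm2 : ∀ i, tm i < r₀ := by
    intro i
    rw [← NNReal.coe_lt_coe, htr]
    have h1 : (0 : ℝ) < 1 / ((i : ℝ) + 2) := by positivity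
    nlinarith
  have htmm : ∀ i j, i < j → tm i < tm j := by
    intro i j hij
    rw [← NNReal.coe_lt_coe, htr, htr]
    have h1 : (1 : ℝ) / ((j : ℝ) + 2) < 1 / ((i : ℝ) + 2) := by
      apply one_div_lt_one_div_of_lt (by positivity)
      have : (i : ℝ) < j := by exact_mod_cast hij
      linarith
    nlinarith
  have htm0 : ∀ i, 0 < tm i := fun i => zero_lt_one.trans_le (htm1 i)
  choose! M hMm hMi using hM
  -- continuity of scaled paths
  have hA : ∀ i, MeasurableSet {ω | (fun t => B t ω) ∈ M (tm i) (c * tm i)} := fun i =>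
    meas_path hB (hMm _ _ (htm0 i))
  have hAi : ∀ i ω, (fun t => B t ω) ∈ M (tm i) (c * tm i) ↔ X (fun t => B t ω) (tm i) = c * tm i :=
    fun i ω => hMi _ _ (htm0 i) _ (hB.cont ω)
  have hsB : ∀ i, GBM (fun t ω => scl (tm i) (fun s => B s ω) t) P := fun i =>
    scl'.{u}.1 P B hB (tm i) (htm0 i)
  have hPA : ∀ i, P {ω | (fun t => B t ω) ∈ M (tm i) (c * tm i)} = p := by
    intro i
    have h1 := law'.{u} P P (fun t ω => scl (tm i) (fun s => B s ω) t) B (hsB i) hB (M 1 c)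
      (hMm _ _ one_pos)
    have h2 : P {ω | (fun t => B t ω) ∈ M 1 c} = p := by
      rw [hp]
      congr 1
      ext ω
      exact hMi _ _ one_pos _ (hB.cont ω)
    rw [← h2, ← h1]
    congr 1
    ext ω
    rw [mem_ofPred_eq, mem_ofPred_eq, hAi, hMi _ _ one_pos _ ((hsB i).cont ω)]
    have h3 := hscl (fun s => B s ω) (tm i) 1 (htm0 i)
    have h4 : (fun t => scl (tm i) (fun s => B s ω) t) = scl (tm i) (fun s => B s ω) := rfl
    rw [h4, h3, mul_one]
    have h5 : (0 : ℝ) < tm i := htm0 i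
    rw [div_eq_iff h5.ne']
  obtain ⟨i, j, hij, hjN, hqle⟩ := hN P (fun i => {ω | (fun t => B t ω) ∈ M (tm i) (c * tm i)}) hA hPA
  set r : ℝ≥0 := tm j / tm i with hrdef
  have hr1 : 1 < r := by
    rw [hrdef, one_lt_div (htm0 i)]
    exact htmm i j hij
  have hr2 : r < r₀ := by
    rw [hrdef, div_lt_iff₀ (htm0 i)]
    calc tm j < r₀ := htm2 j
      _ = r₀ * 1 := (mul_one _).symm
      _ ≤ r₀ * tm i := by gcongr; exact htm1 i
  have hr0 : 0 < r := zero_lt_one.trans hr1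
  have h6 := hr r hr1 hr2
  have h7 := law'.{u} P P (fun t ω => scl (tm i) (fun s => B s ω) t) B (hsB i) hB
    (M 1 c ∩ M r (c * r)) ((hMm _ _ one_pos).inter (hMm _ _ hr0))
  have h8 : P {ω | (fun t => B t ω) ∈ M 1 c ∩ M r (c * r)} =
      P {ω | X (fun t => B t ω) 1 = c ∧ X (fun t => B t ω) r = c * r} := by
    congr 1
    ext ω
    rw [mem_ofPred_eq, mem_ofPred_eq, mem_inter_iff, hMi _ _ one_pos _ (hB.cont ω),
      hMi _ _ hr0 _ (hB.cont ω)]
  have h9 : P {ω | (fun t => scl (tm i) (fun s => B s ω) t) ∈ M 1 c ∩ M r (c * r)} =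
      P ({ω | (fun t => B t ω) ∈ M (tm i) (c * tm i)} ∩ {ω | (fun t => B t ω) ∈ M (tm j) (c * tm j)}) := by
    congr 1
    ext ω
    rw [mem_inter_iff, mem_ofPred_eq, mem_ofPred_eq, mem_ofPred_eq, hAi, hAi, mem_inter_iff,
      hMi _ _ one_pos _ ((hsB i).cont ω), hMi _ _ hr0 _ ((hsB i).cont ω)]
    have h3 := hscl (fun s => B s ω) (tm i) 1 (htm0 i)
    have h3' := hscl (fun s => B s ω) (tm i) r (htm0 i)
    have h4 : (fun t => scl (tm i) (fun s => B s ω) t) = scl (tm i) (fun s => B s ω) := rfl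
    have h10 : tm i * r = tm j := by
      rw [hrdef, mul_div_cancel₀]
      exact (htm0 i).ne'
    rw [h4, h3, h3', mul_one, h10]
    have h5 : (0 : ℝ) < tm i := htm0 i
    have h11 : ((r : ℝ≥0) : ℝ) = tm j / tm i := by rw [hrdef]; push_cast; ring
    rw [div_eq_iff h5.ne', div_eq_iff h5.ne', h11]
    have h12 : c * ((tm j : ℝ) / tm i) * tm i = c * tm j := by field_simp
    rw [h12]
  rw [← h9, h7, h8] at hqle
  exact absurd (lt_of_le_of_lt hqle h6) (lt_irrefl _)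

/-- from almost sure convergence -/
lemma lim_of_ae (X : (ℝ≥0 → ℝ) → ℝ≥0 → ℝ)
    (hM : ∀ (t : ℝ≥0) (v : ℝ), 0 < t → ∃ M : Set (ℝ≥0 → ℝ), MeasurableSet M ∧
      ∀ w, Continuous w → (w ∈ M ↔ X w t = v))
    (hB : GBM B P) (c : ℝ)
    (hae : ∀ᵐ ω ∂P, ∀ᶠ r in 𝓝[>] (1 : ℝ≥0), ¬ (X (fun t => B t ω) 1 = c ∧ X (fun t => B t ω) r = c * r))
    (q : ℝ≥0∞) (hq : 0 < q) : ∃ r₀ : ℝ≥0, 1 < r₀ ∧ ∀ r : ℝ≥0, 1 < r → r < r₀ →
      P {ω | X (fun t => B t ω) 1 = c ∧ X (fun t => B t ω) r = c * r} < q := by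
  have hPp := hB.prob
  have hmeas : ∀ t : ℝ≥0, 0 < t → ∀ v, MeasurableSet {ω | X (fun t => B t ω) t = v} := by
    intro t ht v
    obtain ⟨M, hM1, hM2⟩ := hM t v ht
    have : {ω | X (fun t => B t ω) t = v} = (fun ω t => B t ω) ⁻¹' M := by
      ext ω
      exact (hM2 _ (hB.cont ω)).symm
    rw [this]
    exact meas_path hB hM1
  set E : ℝ≥0 → Set Ω := fun r => {ω | 1 < r ∧ X (fun t => B t ω) 1 = c ∧
    X (fun t => B t ω) r = c * r} with hE
  have hEm : ∀ r, MeasurableSet (E r) := by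
    intro r
    by_cases h1 : 1 < r
    · have : E r = {ω | X (fun t => B t ω) 1 = c} ∩ {ω | X (fun t => B t ω) r = c * r} := by
        ext ω
        simp [hE, h1]
      rw [this]
      exact (hmeas 1 one_pos c).inter (hmeas r (zero_lt_one.trans h1) _)
    · have : E r = ∅ := by
        ext ω
        simp [hE, h1]
      rw [this]
      exact MeasurableSet.empty
  have ht := tendsto_measure_of_ae_tendsto_indicator_of_isFiniteMeasure (μ := P)
    (𝓝[>] (1 : ℝ≥0)) (A := ∅) (As := E) MeasurableSet.empty hEm (by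
      filter_upwards [hae] with ω hω
      filter_upwards [hω] with r hr
      simp only [mem_empty_iff_false, iff_false]
      exact fun h => hr h.2)
  rw [measure_empty] at ht
  have h2 : ∀ᶠ r in 𝓝[>] (1 : ℝ≥0), P (E r) < q := ht.eventually (gt_mem_nhds hq)
  rw [eventually_nhdsWithin_iff] at h2
  obtain ⟨ε, hε, hball⟩ := Metric.eventually_nhds_iff.mp h2
  refine ⟨1 + ⟨ε, hε.le⟩, ?_, fun r hr1 hr2 => ?_⟩
  · exact lt_add_of_pos_right _ hε
  · have h3 : dist r 1 < ε := by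
      rw [NNReal.dist_eq]
      have h4 : (r : ℝ) < 1 + ε := by exact_mod_cast hr2
      have h5 : (1 : ℝ) < r := hr1
      rw [NNReal.coe_one, abs_of_pos (by linarith)]
      linarith
    have h6 := hball h3 hr1
    refine lt_of_le_of_lt (measure_mono fun ω hω => ?_) h6
    exact ⟨hr1, hω.1, hω.2⟩

/-- the facts on the longest excursion -/
lemma ae_rr (hB : GBM B P) : ∀ᵐ ω ∂P, 0 < RR (fun t => B t ω) 1 ∧
    (∃ r : ℝ≥0, 1 < r ∧ ∀ t, 1 ≤ t → t ≤ r → RR (fun t => B t ω) t = RR (fun t => B t ω) 1) ∧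
    (∀ h : ℝ, 0 ≤ h → h ≤ RR (fun t => B t ω) 1 → h ∈ Sp (fun t => B t ω) 1) := by
  filter_upwards [oscl'.{u} P B hB] with ω hω
  exact rdet' _ (hB.cont ω) hω

lemma Sp_le {w : ℝ≥0 → ℝ} {t : ℝ≥0} {h : ℝ} (hh : h ∈ Sp w t) : 0 ≤ h ∧ h ≤ t := by
  obtain ⟨s, v, h1, h2, h3, rfl⟩ := hh
  have h1' : (s : ℝ) ≤ v := h1
  have h2' : (v : ℝ) ≤ t := h2
  have := s.2
  constructor
  · linarith
  · have : (0 : ℝ) ≤ s := s.2
    linarith

theorem rr_no_atom (hB : GBM B P) (c : ℝ) : P {ω | RR (fun t => B t ω) 1 = c} = 0 := by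
  by_cases hc : 0 < c
  · have hM : ∀ (t : ℝ≥0) (v : ℝ), 0 < t → ∃ M : Set (ℝ≥0 → ℝ), MeasurableSet M ∧
      ∀ w, Continuous w → (w ∈ M ↔ RR w t = v) := fun t v ht => (mset' t v ht).2.2
    refine no_atom RR hM (fun w a t ha => (scl'.{u}.2 w a t ha).2.2) hB c
      (lim_of_ae RR hM hB c ?_)
    filter_upwards [ae_rr hB] with ω hω
    obtain ⟨-, ⟨r, hr1, hr2⟩, -⟩ := hω
    filter_upwards [Ioo_mem_nhdsGT hr1] with t ht
    rintro ⟨e1, e2⟩
    rw [hr2 t ht.1.le ht.2.le, e1] at e2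
    have h1 : (1 : ℝ) < t := ht.1
    nlinarith
  · have : P {ω | RR (fun t => B t ω) 1 = c} ≤ P {ω | ¬ (0 < RR (fun t => B t ω) 1)} := by
      refine measure_mono fun ω hω => ?_
      have : RR (fun t => B t ω) 1 = c := hω
      simp only [mem_ofPred_eq, this]
      exact hc
    have h2 : P {ω | ¬ (0 < RR (fun t => B t ω) 1)} = 0 := by
      have := ae_rr hB
      have h3 : ∀ᵐ ω ∂P, 0 < RR (fun t => B t ω) 1 := this.mono fun ω h => h.1
      exact ae_iff.mp h3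
    exact le_antisymm (this.trans h2.le) zero_le

theorem ss_no_atom (hB : GBM B P) (c : ℝ) : P {ω | SS (fun t => B t ω) 1 = c} = 0 := by
  by_cases hc : 0 < c
  · have hM : ∀ (t : ℝ≥0) (v : ℝ), 0 < t → ∃ M : Set (ℝ≥0 → ℝ), MeasurableSet M ∧
      ∀ w, Continuous w → (w ∈ M ↔ SS w t = v) := fun t v ht => (mset' t v ht).1
    refine no_atom SS hM (fun w a t ha => (scl'.{u}.2 w a t ha).1) hB c ?_
    intro q hq
    -- choose a real number below q
    obtain ⟨θ, hθ0, hθq⟩ : ∃ θ : ℝ, 0 < θ ∧ ENNReal.ofReal θ < q := by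
      obtain ⟨y, hy0, hyq⟩ := exists_between hq
      have hyt : y ≠ ⊤ := (hyq.trans_le le_top).ne
      refine ⟨y.toReal, ENNReal.toReal_pos hy0.ne' hyt, ?_⟩
      rwa [ENNReal.ofReal_toReal hyt]
    obtain ⟨r₀, h1, h2⟩ := key'.{u} P B hB c θ hc hθ0
    refine ⟨r₀, h1, fun r hr1 hr2 => ?_⟩
    refine lt_of_le_of_lt ((measure_mono fun ω hω => ?_).trans (h2 r hr1 hr2)) hθq
    obtain ⟨e1, e2⟩ := hω
    simp only [mem_ofPred_eq, e1, e2]
    linarith
  · have h3 : ∀ᵐ ω ∂P, 0 < SS (fun t => B t ω) 1 := by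
      filter_upwards [ae_rr hB] with ω hω
      obtain ⟨h1, -, h2⟩ := hω
      have h4 : Icc (0 : ℝ) (RR (fun t => B t ω) 1) ⊆ Sp (fun t => B t ω) 1 :=
        fun h hh => h2 h hh.1 hh.2
      have h5 : Sp (fun t => B t ω) 1 ⊆ Icc (0 : ℝ) 1 := fun h hh => by
        have := Sp_le hh
        exact ⟨this.1, by simpa using this.2⟩
      have h6 : volume (Sp (fun t => B t ω) 1) ≠ ⊤ := by
        have := (measure_mono h5 (μ := volume)).trans_lt
          (show volume (Icc (0 : ℝ) 1) < ⊤ by rw [Real.volume_Icc]; exact ENNReal.ofReal_lt_top)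
        exact this.ne
      have h7 := ENNReal.toReal_mono h6 (measure_mono h4 (μ := volume))
      rw [Real.volume_Icc, ENNReal.toReal_ofReal (by linarith)] at h7
      unfold SS
      linarith
    have : P {ω | SS (fun t => B t ω) 1 = c} ≤ P {ω | ¬ (0 < SS (fun t => B t ω) 1)} := by
      refine measure_mono fun ω hω => ?_
      have : SS (fun t => B t ω) 1 = c := hω
      simp only [mem_ofPred_eq, this]
      exact hc
    exact le_antisymm (this.trans (ae_iff.mp h3).le) zero_le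

lemma TT_ge {w : ℝ≥0 → ℝ} (h2 : ∀ h : ℝ, 0 ≤ h → h ≤ RR w 1 → h ∈ Sp w 1) : RR w 1 ≤ TT w 1 := by
  unfold TT
  refine le_csInf ⟨2, by norm_num, fun h => ?_⟩ ?_
  · have := (Sp_le h).2
    norm_num at this
  · rintro h ⟨h3, h4⟩
    by_contra hcon
    push Not at hcon
    exact h4 (h2 h h3.le hcon.le)

theorem tt_no_atom (hB : GBM B P) (c : ℝ) : P {ω | TT (fun t => B t ω) 1 = c} = 0 := by
  by_cases hc : 0 < c
  · have hM : ∀ (t : ℝ≥0) (v : ℝ), 0 < t → ∃ M : Set (ℝ≥0 → ℝ), MeasurableSet M ∧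
      ∀ w, Continuous w → (w ∈ M ↔ TT w t = v) := fun t v ht => (mset' t v ht).2.1
    refine no_atom TT hM (fun w a t ha => (scl'.{u}.2 w a t ha).2.1) hB c
      (lim_of_ae TT hM hB c ?_)
    -- the values at 1 and at 1 - c are different
    set c' : ℝ≥0 := c.toNNReal with hc'
    have hc'r : (c' : ℝ) = c := Real.coe_toNNReal _ hc.le
    have hc'0 : 0 < c' := by rw [← NNReal.coe_lt_coe, hc'r]; exact hc
    have hne : ∀ᵐ ω ∂P, c' ≤ 1 → B (1 - c') ω ≠ B 1 ω := by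
      by_cases hc1 : c' ≤ 1
      · have h1 := eval_noatom (hB.shift (1 - c')) hc'0 0
        have h2 : ∀ᵐ ω ∂P, ¬ (B (1 - c' + c') ω - B (1 - c') ω = 0) := by
          rw [ae_iff]
          simpa using h1
        filter_upwards [h2] with ω hω _ heq
        rw [tsub_add_cancel_of_le hc1] at hω
        exact hω (by rw [heq]; ring)
      · exact Eventually.of_forall fun ω h => absurd h hc1
    filter_upwards [hne] with ω hω
    by_contra hcon
    have hfr : ∃ᶠ r in 𝓝[>] (1 : ℝ≥0), (TT (fun t => B t ω) 1 = c ∧ TT (fun t => B t ω) r = c * r) ∧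
        1 < r := by
      have h1 : ∃ᶠ r in 𝓝[>] (1 : ℝ≥0), (TT (fun t => B t ω) 1 = c ∧ TT (fun t => B t ω) r = c * r) := by
        rw [Filter.not_eventually] at hcon
        exact hcon.mono fun r hr => not_not.mp hr
      exact h1.and_eventually self_mem_nhdsWithin
    obtain ⟨r, hr1, hr2⟩ := exists_seq_forall_of_frequently hfr
    have hr1' : Tendsto r atTop (𝓝 1) := hr1.mono_right nhdsWithin_le_nhds
    have hcont := hB.cont ω
    choose s v hv1 hv2 hsv hsw hlo hhi using fun n =>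
      tdet' (fun t => B t ω) hcont c (r n) hc (hr2 n).2 (hr2 n).1.1 (hr2 n).1.2
    have hr1r : Tendsto (fun n => (r n : ℝ)) atTop (𝓝 1) :=
      (NNReal.tendsto_coe.mpr hr1')
    have hvt : Tendsto v atTop (𝓝 1) :=
      tendsto_of_tendsto_of_tendsto_of_le_of_le tendsto_const_nhds hr1' hv1 hv2
    have hvr : Tendsto (fun n => (v n : ℝ)) atTop (𝓝 1) := NNReal.tendsto_coe.mpr hvt
    have hd : Tendsto (fun n => (v n : ℝ) - s n) atTop (𝓝 c) := by
      refine tendsto_of_tendsto_of_tendsto_of_le_of_le tendsto_const_nhds ?_ hlo hhi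
      have := hr1r.const_mul c
      rwa [mul_one] at this
    have hsr : Tendsto (fun n => (s n : ℝ)) atTop (𝓝 (1 - c)) := by
      have := hvr.sub hd
      simpa using this
    have hc1 : c ≤ 1 := by
      have : 0 ≤ 1 - c := ge_of_tendsto' hsr fun n => (s n).2
      linarith
    have hc1' : c' ≤ 1 := by rw [← NNReal.coe_le_coe, hc'r]; simpa using hc1
    have hst : Tendsto s atTop (𝓝 (1 - c')) := by
      rw [← NNReal.tendsto_coe, NNReal.coe_sub hc1', hc'r]
      simpa using hsr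
    have l1 := (hcont.tendsto (1 - c')).comp hst
    have l2 := (hcont.tendsto 1).comp hvt
    have l3 : Tendsto ((fun t => B t ω) ∘ s) atTop (𝓝 (B 1 ω)) := by
      refine l2.congr fun n => ?_
      exact (hsw n).symm
    exact hω hc1' (tendsto_nhds_unique l1 l3)
  · have h3 : ∀ᵐ ω ∂P, 0 < TT (fun t => B t ω) 1 := by
      filter_upwards [ae_rr hB] with ω hω
      exact hω.1.trans_le (TT_ge hω.2.2)
    have : P {ω | TT (fun t => B t ω) 1 = c} ≤ P {ω | ¬ (0 < TT (fun t => B t ω) 1)} := by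
      refine measure_mono fun ω hω => ?_
      have : TT (fun t => B t ω) 1 = c := hω
      simp only [mem_ofPred_eq, this]
      exact hc
    exact le_antisymm (this.trans (ae_iff.mp h3).le) zero_le

end R974.AT
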